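import Mathlib

set_option autoImplicit false

/-!
# The finite check for the short lags `3, ..., 7`

The last seven letters of a history are coded by natural numbers `u0, ..., u6` (most recent
first; the missing letters have the codes `5, 6, ...`), and `r3, ..., r7` are the runs.
-/

namespace Pool.Agent.U373.Game

/-- letter `x` is not forbidden by the last two letters or by an active lag `3 ≤ p ≤ 7` -/
def vl (u0 u1 u2 u3 u4 u5 u6 r3 r4 r5 r6 r7 x : ℕ) : Bool :=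
  !(Nat.beq u0 x) && (!(Nat.beq u1 x) && (!(Nat.ble 1 r3 && Nat.beq u2 x) &&
  (!(Nat.ble 2 r4 && Nat.beq u3 x) && (!(Nat.ble 3 r5 && Nat.beq u4 x) &&
  (!(Nat.ble 4 r6 && Nat.beq u5 x) && !(Nat.ble 5 r7 && Nat.beq u6 x))))))

/-- the exceptional pattern -/
def ex (u0 u1 u2 u3 u4 u5 u6 r7 : ℕ) : Bool :=
  (Nat.beq r7 3 || Nat.beq r7 4) && (Nat.beq u3 u0 && (Nat.beq u5 u1 && (!(Nat.beq u2 u0) &&
  (!(Nat.beq u2 u1) && (!(Nat.beq u4 u1) && (!(Nat.beq u6 u0) && (!(Nat.beq u6 u2) &&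
  !(Nat.beq u6 u4))))))))

/-- number of letters with a property -/
def cnt (f : ℕ → Bool) : ℕ :=
  cond (f 0) 1 0 + cond (f 1) 1 0 + cond (f 2) 1 0 + cond (f 3) 1 0 + cond (f 4) 1 0

/-- safe histories -/
def sf (u0 u1 u2 u3 u4 u5 u6 r3 r4 r5 r6 r7 : ℕ) : Bool :=
  Nat.ble 2 (cnt (vl u0 u1 u2 u3 u4 u5 u6 r3 r4 r5 r6 r7)) && !(ex u0 u1 u2 u3 u4 u5 u6 r7)

/-- one of the two numbers is at most `k` -/
def lo (k r s : ℕ) : Bool := Nat.ble r k || Nat.ble s k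

/-- the pair conditions for the runs -/
def pr (r3 r4 r5 r6 r7 : ℕ) : Bool :=
  lo 0 r3 r4 && (lo 0 r3 r5 && (lo 1 r3 r6 && (lo 2 r3 r7 && (lo 1 r4 r5 && (lo 1 r4 r6 &&
  (lo 2 r4 r7 && (lo 0 r5 r6 && (lo 0 r5 r7 && lo 1 r6 r7))))))))

/-- the new run when `b` is compared with `up` and `a` with `uq` -/
def nr (b a up uq r : ℕ) : ℕ :=
  cond (Nat.beq up b) (cond (Nat.beq uq a) (r + 2) 1) 0

/-- the history after the moves `a` and `b` is safe (or impossible) -/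
def ck (u0 u1 u2 u3 u4 u5 u6 r3 r4 r5 r6 r7 a b : ℕ) : Bool :=
  !(pr (nr b a u1 u2 r3) (nr b a u2 u3 r4) (nr b a u3 u4 r5) (nr b a u4 u5 r6)
    (nr b a u5 u6 r7)) ||
  sf b a u0 u1 u2 u3 u4 (nr b a u1 u2 r3) (nr b a u2 u3 r4) (nr b a u3 u4 r5)
    (nr b a u4 u5 r6) (nr b a u5 u6 r7)

/-- `a` is a good move -/
def gl (u0 u1 u2 u3 u4 u5 u6 r3 r4 r5 r6 r7 a : ℕ) : Bool :=
  vl u0 u1 u2 u3 u4 u5 u6 r3 r4 r5 r6 r7 a &&
  [0, 1, 2, 3, 4].all (ck u0 u1 u2 u3 u4 u5 u6 r3 r4 r5 r6 r7 a)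

/-- at a safe history there are two good moves -/
def lf (u0 u1 u2 u3 u4 u5 u6 r3 r4 r5 r6 r7 : ℕ) : Bool :=
  !(sf u0 u1 u2 u3 u4 u5 u6 r3 r4 r5 r6 r7) ||
  Nat.ble 2 (cnt (gl u0 u1 u2 u3 u4 u5 u6 r3 r4 r5 r6 r7))

def cs3 (u0 u1 u2 u3 u4 u5 r3 : ℕ) : Bool :=
  match r3 with
  | 0 => !(Nat.beq u0 u3)
  | 1 => Nat.beq u0 u3 && !(Nat.beq u1 u4)
  | _ => Nat.beq u0 u3 && (Nat.beq u1 u4 && !(Nat.beq u2 u5))

def cs4 (u0 u1 u2 u4 u5 u6 r4 : ℕ) : Bool :=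
  match r4 with
  | 0 => !(Nat.beq u0 u4)
  | 1 => Nat.beq u0 u4 && !(Nat.beq u1 u5)
  | 2 => Nat.beq u0 u4 && (Nat.beq u1 u5 && !(Nat.beq u2 u6))
  | _ => Nat.beq u0 u4 && (Nat.beq u1 u5 && Nat.beq u2 u6)

def cs5 (u0 u1 u5 u6 r5 : ℕ) : Bool :=
  match r5 with
  | 0 => !(Nat.beq u0 u5)
  | 1 => Nat.beq u0 u5 && !(Nat.beq u1 u6)
  | _ => Nat.beq u0 u5 && Nat.beq u1 u6

def cs6 (u0 u6 r6 : ℕ) : Bool :=
  match r6 with
  | 0 => !(Nat.beq u0 u6)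
  | _ => Nat.beq u0 u6

def cs7 (u6 r7 : ℕ) : Bool :=
  match r7 with
  | 0 => true
  | _ => Nat.ble u6 4

/-- the check for one window -/
def lw (u0 u1 u2 u3 u4 u5 u6 : ℕ) : Bool :=
  [0, 1, 2].all fun r3 => !(cs3 u0 u1 u2 u3 u4 u5 r3) ||
  [0, 1, 2, 3].all fun r4 => !(cs4 u0 u1 u2 u4 u5 u6 r4 && lo 0 r3 r4) ||
  [0, 1, 2, 3, 4].all fun r5 => !(cs5 u0 u1 u5 u6 r5 && (lo 0 r3 r5 && lo 1 r4 r5)) ||
  [0, 1, 2, 3, 4, 5].all fun r6 => !(cs6 u0 u6 r6 && (lo 1 r3 r6 && (lo 1 r4 r6 && lo 0 r5 r6))) ||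
  [0, 1, 2, 3, 4, 5, 6].all fun r7 => !(cs7 u6 r7 && (lo 2 r3 r7 && (lo 2 r4 r7 &&
    (lo 0 r5 r7 && lo 1 r6 r7)))) ||
  lf u0 u1 u2 u3 u4 u5 u6 r3 r4 r5 r6 r7

/-- the check for a window given as the list `[u6, ..., u0]` -/
def lwl : List ℕ → Bool
  | [u6, u5, u4, u3, u2, u1, u0] => lw u0 u1 u2 u3 u4 u5 u6
  | _ => false

/-- the window `l` of length `m` completed by missing letters -/
def fil (m : ℕ) (l : List ℕ) : List ℕ :=
  match m with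
  | 0 => [11, 10, 9, 8, 7, 6, 5] ++ l
  | 2 => [9, 8, 7, 6, 5] ++ l
  | 4 => [7, 6, 5] ++ l
  | 6 => 5 :: l
  | _ => l

/-- the letter number `m` may not be `x` because of Player 1's rules; `l` is the list of the
letters number `m - 1, ..., 0` -/
def cf (m : ℕ) (l : List ℕ) (x : ℕ) : Bool :=
  match m with
  | 2 => match l with
    | y :: _ => Nat.beq y x
    | _ => false
  | 3 => match l with
    | _ :: y :: _ => Nat.beq y x
    | _ => false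
  | 4 => match l with
    | y :: _ => Nat.beq y x
    | _ => false
  | 5 => match l with
    | _ :: y :: _ => Nat.beq y x
    | _ => false
  | 6 => match l with
    | y :: _ => Nat.beq y x
    | _ => false
  | _ => false

/-- all canonical extensions of the window `l` (of length `m`, with letters `< k`) to windows of
length `7 = m + n` pass the check -/
def dfs : ℕ → ℕ → List ℕ → ℕ → Bool
  | 0, _, l, _ => lwl l
  | n + 1, m, l, k =>
    (match m with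
      | 0 => lwl (fil 0 l)
      | 2 => lwl (fil 2 l)
      | 4 => lwl (fil 4 l)
      | 6 => lwl (fil 6 l)
      | _ => true) &&
    [0, 1, 2, 3, 4].all fun x => !(Nat.ble x k) || (cf m l x || dfs n (m + 1) (x :: l) (max k (x + 1)))

theorem dfs_ok : dfs 7 0 [] 0 = true := by
  decide +kernel

end Pool.Agent.U373.Game
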