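import Mathlib
import Pool.Agent.H42.Game.Upper

set_option autoImplicit false

/-!
# Runs of matches with a given lag in a history of the sequence game

Histories are lists, most recent symbol first, as in `Pool.Agent.H42.Game`.
-/

namespace Pool.Agent.U373.Game

open H42Game Finset

variable {c : ℕ}

/-- The number of consecutive matches with lag `p` at the recent end of the history. -/
def run (p : ℕ) : List (Fin c) → ℕ
  | [] => 0
  | b :: h => if h[p - 1]? = some b then run p h + 1 else 0

theorem run_cons (p : ℕ) (b : Fin c) (h : List (Fin c)) :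
    run p (b :: h) = if h[p - 1]? = some b then run p h + 1 else 0 := rfl

theorem run_match {p : ℕ} (hp : 1 ≤ p) (h : List (Fin c)) :
    ∀ i, i < run p h → i + p < h.length ∧ h[i]? = h[i + p]? := by
  induction h with
  | nil => intro i hi; simp [run] at hi
  | cons b h ih =>
    intro i hi
    rw [run_cons] at hi
    split_ifs at hi with hb
    · have hl : p - 1 < h.length := by
        by_contra hcon
        rw [List.getElem?_eq_none (by omega)] at hb
        exact absurd hb (by simp)
      cases i with
      | zero =>
        refine ⟨by simp only [List.length_cons]; omega, ?_⟩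
        rw [Nat.zero_add]
        conv_rhs => rw [show p = (p - 1) + 1 by omega]
        rw [List.getElem?_cons_succ, hb]
        simp
      | succ i =>
        obtain ⟨h1, h2⟩ := ih i (by omega)
        refine ⟨by simp only [List.length_cons]; omega, ?_⟩
        rw [show i + 1 + p = (i + p) + 1 by ring]
        simpa using h2
    · omega

theorem run_spec {p : ℕ} (hp : 1 ≤ p) (h : List (Fin c)) (hl : run p h + p < h.length) :
    h[run p h]? ≠ h[run p h + p]? := by
  induction h with
  | nil => simp at hl
  | cons b h ih =>
    rw [run_cons] at hl ⊢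
    split_ifs at hl ⊢ with hb
    · have := ih (by simp only [List.length_cons] at hl; omega)
      rw [show run p h + 1 + p = (run p h + p) + 1 by ring]
      simpa using this
    · intro hcon
      apply hb
      rw [Nat.zero_add] at hcon
      rw [show p = (p - 1) + 1 by omega, List.getElem?_cons_succ] at hcon
      rw [← hcon]
      simp

theorem le_run {p : ℕ} (hp : 1 ≤ p) (h : List (Fin c)) (m : ℕ)
    (h1 : ∀ i < m, h[i]? = h[i + p]?) (h2 : 0 < m → m + p ≤ h.length) : m ≤ run p h := by
  by_contra hcon
  exact run_spec hp h (by omega) (h1 _ (by omega))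

theorem run_add_le {p : ℕ} (hp : 1 ≤ p) (h : List (Fin c)) (h0 : 0 < run p h) :
    run p h + p ≤ h.length := by
  have := (run_match hp h (run p h - 1) (by omega)).1
  omega

theorem act_iff {p : ℕ} (hp : 3 ≤ p) (h : List (Fin c)) : Act p h ↔ p ≤ run p h + 2 := by
  constructor
  · intro ⟨h1, h2⟩
    have : p - 2 ≤ run p h := le_run (by omega) h _ (fun i hi => h2 i (by omega)) (by omega)
    omega
  · intro hr
    have := run_add_le (p := p) (by omega) h (by omega)
    exact ⟨by omega, fun i hi => (run_match (by omega) h i (by omega)).2⟩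

theorem run_map {d : ℕ} (p : ℕ) (e : Fin c → Fin d) (he : Function.Injective e)
    (h : List (Fin c)) : run p (h.map e) = run p h := by
  induction h with
  | nil => rfl
  | cons b h ih =>
    rw [List.map_cons, run_cons, run_cons, ih, List.getElem?_map]
    have : (Option.map e h[p - 1]? = some (e b)) ↔ h[p - 1]? = some b := by
      rw [← Option.map_some, (Option.map_injective he).eq_iff]
    simp only [this]

/-- runs after a legal move of Player 1 -/
theorem run_mid {h : List (Fin c)} {a : Fin c} (hb : ¬ Bad h a) :
    run 1 (a :: h) = 0 ∧ run 2 (a :: h) = 0 ∧ ∀ d, 3 ≤ d → run d (a :: h) + 2 ≤ d := by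
  refine ⟨?_, ?_, ?_⟩
  · rw [run_cons, if_neg]
    exact fun h0 => hb (Or.inl h0)
  · rw [run_cons, if_neg]
    exact fun h0 => hb (Or.inr (Or.inl h0))
  · intro d hd
    rw [run_cons]
    split_ifs with h1
    · have : ¬ Act d h := fun hA => hb (Or.inr (Or.inr ⟨d, hd, hA, h1⟩))
      rw [act_iff hd] at this
      omega
    · omega

/-- runs at Player 1's turn -/
theorem run_play {τ : List (Fin c) → Fin c} {n : ℕ} {s : List (Fin c)} (hs : s ∈ S τ n) :
    run 1 (play τ s) ≤ 1 ∧ run 2 (play τ s) ≤ 1 ∧
      ∀ d, 3 ≤ d → run d (play τ s) + 1 ≤ d := by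
  cases n with
  | zero =>
    simp only [S, mem_singleton] at hs
    subst hs
    simp [play, run]
    omega
  | succ n =>
    obtain ⟨t, -, a, ha, rfl⟩ := mem_S_succ.1 hs
    obtain ⟨h1, h2, h3⟩ := run_mid ha
    refine ⟨?_, ?_, ?_⟩
    · simp only [play]
      rw [run_cons, h1]
      split_ifs <;> omega
    · simp only [play]
      rw [run_cons, h2]
      split_ifs <;> omega
    · intro d hd
      have := h3 d hd
      simp only [play]
      rw [run_cons]
      split_ifs <;> omega

/-- the runs with lags `p` and `q` cannot both be long -/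
theorem run_drop {h : List (Fin c)} {p q : ℕ} (hp : 1 ≤ p) (hpq : p < q) :
    min (run p h) (run q h) ≤ run (q - p) (h.drop p) := by
  apply le_run (by omega)
  · intro i hi
    have h1 := (run_match hp h i (by omega)).2
    have h2 := (run_match (show 1 ≤ q by omega) h i (by omega)).2
    rw [List.getElem?_drop, List.getElem?_drop, show p + i = i + p by ring,
      show p + (i + (q - p)) = i + q by omega, ← h1, ← h2]
  · intro hm
    have := run_add_le (show 1 ≤ q by omega) h (by omega)
    rw [List.length_drop]
    omega

/-- the bound for the shorter of the two runs with lags `p < q` at Player 1's turn -/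
def bnd (p q : ℕ) : ℕ :=
  if q - p ≤ 2 then (if p % 2 = 0 then 1 else 0)
  else (if p % 2 = 0 then q - p - 1 else q - p - 2)

theorem run_pair {τ : List (Fin c) → Fin c} {n : ℕ} {s : List (Fin c)} (hs : s ∈ S τ n)
    {p q : ℕ} (hp : 1 ≤ p) (hpq : p < q) :
    min (run p (play τ s)) (run q (play τ s)) ≤ bnd p q := by
  refine (run_drop hp hpq).trans ?_
  obtain ⟨d, hd⟩ : ∃ d, d = q - p := ⟨_, rfl⟩
  rw [bnd, ← hd]
  have hd1 : 1 ≤ d := by omega
  rcases Nat.even_or_odd' p with ⟨k, hk | hk⟩
  · -- even
    subst hk
    rw [play_drop]
    rw [if_pos (show 2 * k % 2 = 0 by omega), if_pos (show 2 * k % 2 = 0 by omega)]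
    rcases Nat.lt_or_ge n k with h | h
    · have : s.drop k = [] := by
        rw [List.drop_eq_nil_iff, length_of_mem hs]; omega
      rw [this]
      simp [play, run]
    · obtain ⟨m, rfl⟩ : ∃ m, n = m + k := ⟨n - k, by omega⟩
      obtain ⟨h1, h2, h3⟩ := run_play (drop_mem hs)
      split_ifs with h4
      · have : d = 1 ∨ d = 2 := by omega
        rcases this with rfl | rfl
        · exact h1
        · exact h2
      · have := h3 d (by omega)
        omega
  · -- odd
    subst hk
    rw [if_neg (show ¬ (2 * k + 1) % 2 = 0 by omega), if_neg (show ¬ (2 * k + 1) % 2 = 0 by omega)]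
    have hdrop : (play τ s).drop (2 * k + 1) = (play τ (s.drop k)).drop 1 := by
      rw [← play_drop, List.drop_drop]
    rw [hdrop]
    rcases Nat.lt_or_ge k n with h | h
    · obtain ⟨m, rfl⟩ : ∃ m, n = m + 1 + k := ⟨n - k - 1, by omega⟩
      obtain ⟨t, -, a, ha, he⟩ := mem_S_succ.1 (drop_mem hs)
      rw [he]
      simp only [play, List.drop_succ_cons, List.drop_zero]
      obtain ⟨h1, h2, h3⟩ := run_mid ha
      split_ifs with h4
      · have : d = 1 ∨ d = 2 := by omega
        rcases this with rfl | rfl
        · exact h1.le
        · exact h2.le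
      · have := h3 d (by omega)
        omega
    · have : s.drop k = [] := by
        rw [List.drop_eq_nil_iff, length_of_mem hs]; omega
      rw [this]
      simp [play, run]

end Pool.Agent.U373.Game
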