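import Mathlib
import Pool.Agent.U373.Game.Run
import Pool.Agent.U373.Game.LocalCheck

set_option autoImplicit false

/-!
# What the finite check for the lags `3, ..., 7` says
-/

namespace Pool.Agent.U373.Game

open H42Game Finset

/-- the code of the letter number `i` -/
def cd (h : List (Fin 5)) (i : ℕ) : ℕ := (h[i]?.map Fin.val).getD (5 + (i - h.length))

theorem cd_of_some {h : List (Fin 5)} {i : ℕ} {a : Fin 5} (hi : h[i]? = some a) :
    cd h i = a.val := by simp [cd, hi]

theorem cd_of_ge {h : List (Fin 5)} {i : ℕ} (hi : h.length ≤ i) :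
    cd h i = 5 + (i - h.length) := by
  simp [cd, List.getElem?_eq_none hi]

theorem cd_val {h : List (Fin 5)} {i : ℕ} {a : Fin 5} : cd h i = a.val ↔ h[i]? = some a := by
  constructor
  · intro h1
    rcases Nat.lt_or_ge i h.length with h2 | h2
    · rw [cd_of_some (List.getElem?_eq_getElem h2)] at h1
      rw [List.getElem?_eq_getElem h2, Fin.ext h1]
    · rw [cd_of_ge h2] at h1
      have := a.isLt
      omega
  · exact cd_of_some

theorem cd_eq_iff {h : List (Fin 5)} {i j : ℕ} (hij : i < j) :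
    cd h i = cd h j ↔ j < h.length ∧ h[i]? = h[j]? := by
  rcases Nat.lt_or_ge j h.length with h2 | h2
  · have e1 := List.getElem?_eq_getElem (show i < h.length by omega)
    have e2 := List.getElem?_eq_getElem h2
    rw [cd_of_some e1, cd_of_some e2, e1, e2]
    constructor
    · intro h3; exact ⟨h2, by rw [Fin.ext h3]⟩
    · rintro ⟨-, h3⟩; rw [Option.some.inj h3]
  · constructor
    · intro h3
      rw [cd_of_ge h2] at h3
      rcases Nat.lt_or_ge i h.length with h4 | h4
      · rw [cd_of_some (List.getElem?_eq_getElem h4)] at h3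
        have := (h[i]).isLt
        omega
      · rw [cd_of_ge h4] at h3
        omega
    · rintro ⟨h3, -⟩; omega

theorem map_some_iff (e : Equiv.Perm (Fin 5)) (h : List (Fin 5)) (i : ℕ) (a : Fin 5) :
    (h.map e)[i]? = some (e a) ↔ h[i]? = some a := by
  rw [List.getElem?_map, ← Option.map_some, (Option.map_injective e.injective).eq_iff]

theorem map_eq_iff (e : Equiv.Perm (Fin 5)) (h : List (Fin 5)) (i j : ℕ) :
    (h.map e)[i]? = (h.map e)[j]? ↔ h[i]? = h[j]? := by
  rw [List.getElem?_map, List.getElem?_map, (Option.map_injective e.injective).eq_iff]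

theorem beq_map (e : Equiv.Perm (Fin 5)) (h : List (Fin 5)) (i : ℕ) (a : Fin 5) :
    Nat.beq (cd (h.map e) i) (e a).val = Nat.beq (cd h i) a.val := by
  rw [Bool.eq_iff_iff, Nat.beq_eq, Nat.beq_eq, cd_val, cd_val, map_some_iff]

theorem beq_map2 (e : Equiv.Perm (Fin 5)) (h : List (Fin 5)) (i j : ℕ) (hij : i < j) :
    Nat.beq (cd (h.map e) i) (cd (h.map e) j) = Nat.beq (cd h i) (cd h j) := by
  rw [Bool.eq_iff_iff, Nat.beq_eq, Nat.beq_eq, cd_eq_iff hij, cd_eq_iff hij, map_eq_iff,
    List.length_map]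

theorem beq_map3 (e : Equiv.Perm (Fin 5)) (h : List (Fin 5)) (i j : ℕ) (hij : j < i) :
    Nat.beq (cd (h.map e) i) (cd (h.map e) j) = Nat.beq (cd h i) (cd h j) := by
  have := beq_map2 e h j i hij
  rw [Bool.eq_iff_iff, Nat.beq_eq, Nat.beq_eq] at this ⊢
  rw [eq_comm, this, eq_comm]

/-- the letter `a` is allowed as far as the lags `≤ 7` are concerned -/
def V (h : List (Fin 5)) (a : Fin 5) : Prop :=
  vl (cd h 0) (cd h 1) (cd h 2) (cd h 3) (cd h 4) (cd h 5) (cd h 6)
    (run 3 h) (run 4 h) (run 5 h) (run 6 h) (run 7 h) a.val = true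

def X (h : List (Fin 5)) : Prop :=
  ex (cd h 0) (cd h 1) (cd h 2) (cd h 3) (cd h 4) (cd h 5) (cd h 6) (run 7 h) = true

/-- safe histories -/
def Safe (h : List (Fin 5)) : Prop :=
  sf (cd h 0) (cd h 1) (cd h 2) (cd h 3) (cd h 4) (cd h 5) (cd h 6)
    (run 3 h) (run 4 h) (run 5 h) (run 6 h) (run 7 h) = true

theorem cnt_iff (f : ℕ → Bool) :
    Nat.ble 2 (cnt f) = true ↔ ∃ a b : Fin 5, a ≠ b ∧ f a.val = true ∧ f b.val = true := by
  constructor
  · intro h
    by_contra hcon
    push Not at hcon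
    have h01 := hcon 0 1 (by decide)
    have h02 := hcon 0 2 (by decide)
    have h03 := hcon 0 3 (by decide)
    have h04 := hcon 0 4 (by decide)
    have h12 := hcon 1 2 (by decide)
    have h13 := hcon 1 3 (by decide)
    have h14 := hcon 1 4 (by decide)
    have h23 := hcon 2 3 (by decide)
    have h24 := hcon 2 4 (by decide)
    have h34 := hcon 3 4 (by decide)
    simp only [Fin.val_zero, Fin.val_one, show (2 : Fin 5).val = 2 from rfl,
      show (3 : Fin 5).val = 3 from rfl, show (4 : Fin 5).val = 4 from rfl] at *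
    rw [Nat.ble_eq] at h
    unfold cnt at h
    cases e0 : f 0 <;> cases e1 : f 1 <;> cases e2 : f 2 <;> cases e3 : f 3 <;>
      cases e4 : f 4 <;> simp_all
  · rintro ⟨a, b, hab, ha, hb⟩
    rw [Nat.ble_eq]
    unfold cnt
    have key : ∀ i : Fin 5, f i.val = true → (i = 0 ∧ f 0 = true) ∨ (i = 1 ∧ f 1 = true) ∨
        (i = 2 ∧ f 2 = true) ∨ (i = 3 ∧ f 3 = true) ∨ (i = 4 ∧ f 4 = true) := by
      intro i hi
      fin_cases i
      · exact Or.inl ⟨rfl, hi⟩
      · exact Or.inr (Or.inl ⟨rfl, hi⟩)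
      · exact Or.inr (Or.inr (Or.inl ⟨rfl, hi⟩))
      · exact Or.inr (Or.inr (Or.inr (Or.inl ⟨rfl, hi⟩)))
      · exact Or.inr (Or.inr (Or.inr (Or.inr ⟨rfl, hi⟩)))
    rcases key a ha with ⟨rfl, h1⟩ | ⟨rfl, h1⟩ | ⟨rfl, h1⟩ | ⟨rfl, h1⟩ | ⟨rfl, h1⟩ <;>
    rcases key b hb with ⟨rfl, h2⟩ | ⟨rfl, h2⟩ | ⟨rfl, h2⟩ | ⟨rfl, h2⟩ | ⟨rfl, h2⟩ <;>
    first
      | exact absurd rfl hab
      | (rw [h1, h2]; simp only [cond_true]; omega)

theorem safe_iff (h : List (Fin 5)) :
    Safe h ↔ (∃ a b : Fin 5, a ≠ b ∧ V h a ∧ V h b) ∧ ¬ X h := by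
  unfold Safe sf
  rw [Bool.and_eq_true, cnt_iff, Bool.not_eq_true', ← Bool.not_eq_true]
  rfl

theorem V_map (e : Equiv.Perm (Fin 5)) (h : List (Fin 5)) (a : Fin 5) :
    V (h.map e) (e a) ↔ V h a := by
  unfold V vl
  simp only [beq_map, run_map _ _ e.injective]

theorem X_map (e : Equiv.Perm (Fin 5)) (h : List (Fin 5)) : X (h.map e) ↔ X h := by
  unfold X ex
  rw [run_map _ _ e.injective, beq_map3 e h 3 0 (by norm_num), beq_map3 e h 5 1 (by norm_num),
    beq_map3 e h 2 0 (by norm_num), beq_map3 e h 2 1 (by norm_num),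
    beq_map3 e h 4 1 (by norm_num), beq_map3 e h 6 0 (by norm_num),
    beq_map3 e h 6 2 (by norm_num), beq_map3 e h 6 4 (by norm_num)]

theorem Safe_map (e : Equiv.Perm (Fin 5)) (h : List (Fin 5)) : Safe (h.map e) ↔ Safe h := by
  rw [safe_iff, safe_iff, X_map]
  constructor
  · rintro ⟨⟨a, b, hab, ha, hb⟩, hX⟩
    refine ⟨⟨e.symm a, e.symm b, fun h => hab (e.symm.injective h), ?_, ?_⟩, hX⟩
    · rw [← V_map e, Equiv.apply_symm_apply]; exact ha
    · rw [← V_map e, Equiv.apply_symm_apply]; exact hb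
  · rintro ⟨⟨a, b, hab, ha, hb⟩, hX⟩
    exact ⟨⟨e a, e b, fun h => hab (e.injective h), (V_map e h a).2 ha, (V_map e h b).2 hb⟩, hX⟩

theorem V_spec {h : List (Fin 5)} {a : Fin 5} (hV : V h a) :
    h[0]? ≠ some a ∧ h[1]? ≠ some a ∧
      ∀ p, 3 ≤ p → p ≤ 7 → p ≤ run p h + 2 → h[p - 1]? ≠ some a := by
  unfold V vl at hV
  simp only [Bool.and_eq_true, Bool.not_eq_true', Bool.and_eq_false_iff] at hV
  simp only [← Bool.not_eq_true, Nat.beq_eq, Nat.ble_eq, cd_val] at hV
  obtain ⟨h0, h1, h3, h4, h5, h6, h7⟩ := hV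
  refine ⟨h0, h1, ?_⟩
  intro p hp1 hp2 hr
  interval_cases p
  · exact h3.resolve_left (by omega)
  · exact h4.resolve_left (by omega)
  · exact h5.resolve_left (by omega)
  · exact h6.resolve_left (by omega)
  · exact h7.resolve_left (by omega)

/-- Player 1's letters differ from the two letters before them, and the length is even -/
def Legal (h : List (Fin 5)) : Prop :=
  Even h.length ∧ ∀ j a, h[2 * j + 1]? = some a → h[2 * j + 2]? ≠ some a ∧ h[2 * j + 3]? ≠ some a

theorem legal_play {τ : List (Fin 5) → Fin 5} {n : ℕ} {s : List (Fin 5)} (hs : s ∈ S τ n) :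
    Legal (play τ s) := by
  refine ⟨⟨s.length, by rw [play_length]; ring⟩, ?_⟩
  induction n generalizing s with
  | zero => simp only [S, mem_singleton] at hs; subst hs; simp [play]
  | succ n ih =>
    obtain ⟨t, ht, a, ha, rfl⟩ := mem_S_succ.1 hs
    intro j b hb
    cases j with
    | zero =>
      simp only [play, Nat.mul_zero, Nat.zero_add, List.getElem?_cons_succ,
        List.getElem?_cons_zero, Option.some.injEq] at hb ⊢
      subst hb
      exact ⟨fun h1 => ha (Or.inl h1), fun h1 => ha (Or.inr (Or.inl h1))⟩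
    | succ j =>
      have e1 : 2 * (j + 1) + 1 = (2 * j + 1) + 1 + 1 := by ring
      have e2 : 2 * (j + 1) + 2 = (2 * j + 2) + 1 + 1 := by ring
      have e3 : 2 * (j + 1) + 3 = (2 * j + 3) + 1 + 1 := by ring
      rw [e1] at hb
      rw [e2, e3]
      simp only [play, List.getElem?_cons_succ] at hb ⊢
      exact ih ht j b hb

theorem Legal_map (e : Equiv.Perm (Fin 5)) {h : List (Fin 5)} (hL : Legal h) :
    Legal (h.map e) := by
  refine ⟨by rw [List.length_map]; exact hL.1, ?_⟩
  intro j a ha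
  have ha' : h[2 * j + 1]? = some (e.symm a) := by
    rw [← map_some_iff e, Equiv.apply_symm_apply]; exact ha
  obtain ⟨h1, h2⟩ := hL.2 j _ ha'
  rw [Ne, ← map_some_iff e, Equiv.apply_symm_apply] at h1 h2
  exact ⟨h1, h2⟩

theorem Legal.ne1 {h : List (Fin 5)} (hL : Legal h) (j : ℕ) :
    cd h (2 * j + 1) ≠ cd h (2 * j + 2) := by
  intro hcon
  rw [cd_eq_iff (by omega)] at hcon
  have e := List.getElem?_eq_getElem (show 2 * j + 1 < h.length by omega)
  exact (hL.2 j _ e).1 (hcon.2.symm.trans e)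

theorem Legal.ne2 {h : List (Fin 5)} (hL : Legal h) (j : ℕ) :
    cd h (2 * j + 1) ≠ cd h (2 * j + 3) := by
  intro hcon
  rw [cd_eq_iff (by omega)] at hcon
  have e := List.getElem?_eq_getElem (show 2 * j + 1 < h.length by omega)
  exact (hL.2 j _ e).2 (hcon.2.symm.trans e)

/-- the list of the codes of the letters number `m - 1, ..., 0` -/
def rc (h : List (Fin 5)) : ℕ → List ℕ
  | 0 => []
  | m + 1 => cd h m :: rc h m

theorem rc_congr {h h' : List (Fin 5)} {m : ℕ} (H : ∀ i < m, cd h i = cd h' i) :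
    rc h m = rc h' m := by
  induction m with
  | zero => rfl
  | succ m ih =>
    rw [rc, rc, H m (by omega), ih (fun i hi => H i (by omega))]

theorem cf_false {h : List (Fin 5)} (hL : Legal h) {m : ℕ} (hm : m ≤ 6) :
    cf m (rc h m) (cd h m) = false := by
  have n1 := hL.ne1 0
  have n2 := hL.ne2 0
  have n3 := hL.ne1 1
  have n4 := hL.ne2 1
  have n5 := hL.ne1 2
  interval_cases m
  · rfl
  · rfl
  · simp only [cf, rc]
    rw [← Bool.not_eq_true, Nat.beq_eq]; exact n1
  · simp only [cf, rc]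
    rw [← Bool.not_eq_true, Nat.beq_eq]; exact n2
  · simp only [cf, rc]
    rw [← Bool.not_eq_true, Nat.beq_eq]; exact n3
  · simp only [cf, rc]
    rw [← Bool.not_eq_true, Nat.beq_eq]; exact n4
  · simp only [cf, rc]
    rw [← Bool.not_eq_true, Nat.beq_eq]; exact n5

theorem dfs_short {h : List (Fin 5)} (hL : Legal h) {n m k : ℕ} (hm : m ≤ 6)
    (hl : h.length = m) (hd : dfs (n + 1) m (rc h m) k = true) : lwl (rc h 7) = true := by
  have he := hL.1
  rw [hl] at he
  simp only [dfs, Bool.and_eq_true] at hd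
  have hc : ∀ i, m ≤ i → cd h i = 5 + (i - m) := fun i hi => by
    rw [cd_of_ge (by omega), hl]
  interval_cases m
  · have := hd.1
    simpa [fil, rc, hc] using this
  · exact absurd he (by decide)
  · have := hd.1
    simpa [fil, rc, hc] using this
  · exact absurd he (by decide)
  · have := hd.1
    simpa [fil, rc, hc] using this
  · exact absurd he (by decide)
  · have := hd.1
    simpa [fil, rc, hc] using this

theorem mem_letters {x : ℕ} (hx : x < 5) : x ∈ [0, 1, 2, 3, 4] := by
  interval_cases x <;> simp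

theorem dfs_spec {h : List (Fin 5)} (hL : Legal h) : ∀ n m, n + m = 7 → m ≤ h.length →
    ∀ (e : Equiv.Perm (Fin 5)) (k : ℕ), k ≤ 5 → (∀ i < m, cd (h.map e) i < k) →
    dfs n m (rc (h.map e) m) k = true → ∃ e' : Equiv.Perm (Fin 5), lwl (rc (h.map e') 7) = true := by
  intro n
  induction n with
  | zero =>
    intro m hm _ e k _ _ hd
    have : m = 7 := by omega
    subst this
    exact ⟨e, hd⟩
  | succ n ih =>
    intro m hm hml e k hk hlt hd
    rcases Nat.lt_or_ge m h.length with hm2 | hm2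
    · have hm3 : m < (h.map e).length := by rw [List.length_map]; exact hm2
      obtain ⟨x, hx⟩ : ∃ x, (h.map e)[m]? = some x := ⟨_, List.getElem?_eq_getElem hm3⟩
      have hcx := cd_of_some hx
      have hd2 := hd
      simp only [dfs, Bool.and_eq_true, List.all_eq_true] at hd2
      rcases Nat.lt_or_ge x.val k with hxk | hxk
      · have h1 := hd2.2 x.val (mem_letters x.isLt)
        have hble : Nat.ble x.val k = true := by rw [Nat.ble_eq]; omega
        have hcf : cf m (rc (h.map e) m) x.val = false := by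
          rw [← hcx]; exact cf_false (Legal_map e hL) (by omega)
        rw [hble, hcf] at h1
        simp only [Bool.not_true, Bool.false_or] at h1
        rw [show max k (x.val + 1) = k by omega] at h1
        apply ih (m + 1) (by omega) (by omega) e k hk
        · intro i hi
          rcases Nat.lt_or_ge i m with h2 | h2
          · exact hlt i h2
          · have : i = m := by omega
            subst this
            rw [hcx]; exact hxk
        · rw [rc, hcx]; exact h1
      · have hk4 : k < 5 := lt_of_le_of_lt hxk x.isLt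
        set y : Fin 5 := ⟨k, hk4⟩ with hy
        set e' : Equiv.Perm (Fin 5) := e.trans (Equiv.swap x y) with he'
        have hmap : ∀ i : ℕ, (h.map e')[i]? = ((h.map e)[i]?).map (Equiv.swap x y) := by
          intro i
          rw [List.getElem?_map, List.getElem?_map, Option.map_map]
          rfl
        have hsame : ∀ i < m, cd (h.map e') i = cd (h.map e) i := by
          intro i hi
          obtain ⟨z, hz⟩ : ∃ z, (h.map e)[i]? = some z :=
            ⟨_, List.getElem?_eq_getElem (by omega)⟩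
          have h1 := hlt i hi
          rw [cd_of_some hz] at h1 ⊢
          have hzx : z ≠ x := by rintro rfl; omega
          have hzy : z ≠ y := by
            rintro rfl
            rw [hy] at h1
            exact absurd h1 (lt_irrefl _)
          apply cd_of_some
          rw [hmap, hz, Option.map_some, Equiv.swap_apply_of_ne_of_ne hzx hzy]
        have hnew : cd (h.map e') m = k := by
          have : (h.map e')[m]? = some y := by
            rw [hmap, hx, Option.map_some, Equiv.swap_apply_left]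
          rw [cd_of_some this]
        have h1 := hd2.2 k (mem_letters hk4)
        have hble : Nat.ble k k = true := by rw [Nat.ble_eq]
        have hrc : rc (h.map e') m = rc (h.map e) m := rc_congr hsame
        have hcf : cf m (rc (h.map e) m) k = false := by
          have := cf_false (Legal_map e' hL) (show m ≤ 6 by omega)
          rw [hnew, hrc] at this
          exact this
        rw [hble, hcf] at h1
        simp only [Bool.not_true, Bool.false_or] at h1
        rw [show max k (k + 1) = k + 1 by omega] at h1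
        apply ih (m + 1) (by omega) (by omega) e' (k + 1) (by omega)
        · intro i hi
          rcases Nat.lt_or_ge i m with h2 | h2
          · rw [hsame i h2]
            have := hlt i h2
            omega
          · have : i = m := by omega
            subst this
            rw [hnew]; omega
        · rw [rc, hnew, hrc]; exact h1
    · have hl : (h.map e).length = m := by rw [List.length_map]; omega
      exact ⟨e, dfs_short (Legal_map e hL) (by omega) hl hd⟩

theorem exists_canon {h : List (Fin 5)} (hL : Legal h) :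
    ∃ e : Equiv.Perm (Fin 5), lwl (rc (h.map e) 7) = true :=
  dfs_spec hL 7 0 rfl (Nat.zero_le _) 1 0 (by norm_num) (by intro i hi; omega) dfs_ok

/-- the pair conditions for the lags `3, ..., 7` -/
def PR (h : List (Fin 5)) : Prop :=
  pr (run 3 h) (run 4 h) (run 5 h) (run 6 h) (run 7 h) = true

theorem PR_map (e : Equiv.Perm (Fin 5)) (h : List (Fin 5)) : PR (h.map e) ↔ PR h := by
  unfold PR
  simp only [run_map _ _ e.injective]

theorem PR_play {τ : List (Fin 5) → Fin 5} {n : ℕ} {s : List (Fin 5)} (hs : s ∈ S τ n) :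
    PR (play τ s) := by
  have key : ∀ p q : ℕ, 1 ≤ p → p < q →
      lo (bnd p q) (run p (play τ s)) (run q (play τ s)) = true := by
    intro p q hp hpq
    have := run_pair hs hp hpq
    simp only [lo, Bool.or_eq_true, Nat.ble_eq]
    omega
  have k34 := key 3 4 (by norm_num) (by norm_num)
  have k35 := key 3 5 (by norm_num) (by norm_num)
  have k36 := key 3 6 (by norm_num) (by norm_num)
  have k37 := key 3 7 (by norm_num) (by norm_num)
  have k45 := key 4 5 (by norm_num) (by norm_num)
  have k46 := key 4 6 (by norm_num) (by norm_num)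
  have k47 := key 4 7 (by norm_num) (by norm_num)
  have k56 := key 5 6 (by norm_num) (by norm_num)
  have k57 := key 5 7 (by norm_num) (by norm_num)
  have k67 := key 6 7 (by norm_num) (by norm_num)
  norm_num [bnd] at k34 k35 k36 k37 k45 k46 k47 k56 k57 k67
  unfold PR pr
  simp only [k34, k35, k36, k37, k45, k46, k47, k56, k57, k67, Bool.and_self]

/-- the code of a run at a new history -/
theorem nr_eq (h : List (Fin 5)) (a b : Fin 5) {p : ℕ} (hp : 2 ≤ p) :
    run p (b :: a :: h) = nr b.val a.val (cd h (p - 2)) (cd h (p - 1)) (run p h) := by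
  obtain ⟨q, rfl⟩ : ∃ q, p = q + 2 := ⟨p - 2, by omega⟩
  rw [run_cons, run_cons, show q + 2 - 1 = q + 1 by omega, show q + 2 - 2 = q by omega,
    List.getElem?_cons_succ]
  unfold nr
  have e1 : Nat.beq (cd h q) b.val = decide (h[q]? = some b) := by
    rw [Bool.eq_iff_iff, Nat.beq_eq, cd_val, decide_eq_true_iff]
  have e2 : Nat.beq (cd h (q + 1)) a.val = decide (h[q + 1]? = some a) := by
    rw [Bool.eq_iff_iff, Nat.beq_eq, cd_val, decide_eq_true_iff]
  rw [e1, e2]
  by_cases h1 : h[q]? = some b <;> by_cases h2 : h[q + 1]? = some a <;> simp [h1, h2]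

theorem cd_cons0 (h : List (Fin 5)) (a : Fin 5) : cd (a :: h) 0 = a.val := by simp [cd]

/-- a good move -/
def Good (h : List (Fin 5)) (a : Fin 5) : Prop :=
  V h a ∧ ∀ b, PR (b :: a :: h) → Safe (b :: a :: h)

theorem Good_map (e : Equiv.Perm (Fin 5)) {h : List (Fin 5)} {a : Fin 5}
    (hG : Good (h.map e) (e a)) : Good h a := by
  refine ⟨(V_map e h a).1 hG.1, fun b hb => ?_⟩
  rw [← Safe_map e]
  have := hG.2 (e b)
  apply this
  exact (PR_map e (b :: a :: h)).2 hb

theorem code_run_eq {h : List (Fin 5)} {p i : ℕ} (hp : 1 ≤ p) (hi : i < run p h) :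
    cd h i = cd h (i + p) := by
  rw [cd_eq_iff (by omega)]
  exact run_match hp h i hi

theorem code_run_ne {h : List (Fin 5)} {p : ℕ} (hp : 1 ≤ p) :
    cd h (run p h) ≠ cd h (run p h + p) := by
  intro hcon
  rw [cd_eq_iff (by omega)] at hcon
  exact run_spec hp h hcon.1 hcon.2

theorem cs3_ok {h : List (Fin 5)} (hr : run 3 h + 1 ≤ 3) :
    cs3 (cd h 0) (cd h 1) (cd h 2) (cd h 3) (cd h 4) (cd h 5) (run 3 h) = true := by
  have h1 := code_run_ne (h := h) (p := 3) (by norm_num)
  have h2 := fun i => code_run_eq (h := h) (p := 3) (i := i) (by norm_num)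
  obtain ⟨r, hrr⟩ : ∃ r, r = run 3 h := ⟨_, rfl⟩
  rw [← hrr] at h1 h2 hr ⊢
  have hr2 : r ≤ 2 := by omega
  interval_cases r
  · simpa [cs3, ← Bool.not_eq_true, Nat.beq_eq] using h1
  · have := h2 0 (by norm_num)
    simp only [cs3, Bool.and_eq_true, Bool.not_eq_true', ← Bool.not_eq_true, Nat.beq_eq]
    exact ⟨this, h1⟩
  · have := h2 0 (by norm_num)
    have h3 := h2 1 (by norm_num)
    simp only [cs3, Bool.and_eq_true, Bool.not_eq_true', ← Bool.not_eq_true, Nat.beq_eq]
    exact ⟨this, h3, h1⟩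

theorem cs4_ok {h : List (Fin 5)} (hr : run 4 h + 1 ≤ 4) :
    cs4 (cd h 0) (cd h 1) (cd h 2) (cd h 4) (cd h 5) (cd h 6) (run 4 h) = true := by
  have h1 := code_run_ne (h := h) (p := 4) (by norm_num)
  have h2 := fun i => code_run_eq (h := h) (p := 4) (i := i) (by norm_num)
  obtain ⟨r, hrr⟩ : ∃ r, r = run 4 h := ⟨_, rfl⟩
  rw [← hrr] at h1 h2 hr ⊢
  have hr2 : r ≤ 3 := by omega
  interval_cases r
  · simpa [cs4, ← Bool.not_eq_true, Nat.beq_eq] using h1
  · have := h2 0 (by norm_num)
    simp only [cs4, Bool.and_eq_true, Bool.not_eq_true', ← Bool.not_eq_true, Nat.beq_eq]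
    exact ⟨this, h1⟩
  · have := h2 0 (by norm_num)
    have h3 := h2 1 (by norm_num)
    simp only [cs4, Bool.and_eq_true, Bool.not_eq_true', ← Bool.not_eq_true, Nat.beq_eq]
    exact ⟨this, h3, h1⟩
  · have := h2 0 (by norm_num)
    have h3 := h2 1 (by norm_num)
    have h4 := h2 2 (by norm_num)
    simp only [cs4, Bool.and_eq_true, Nat.beq_eq]
    exact ⟨this, h3, h4⟩

theorem cs5_ok {h : List (Fin 5)} :
    cs5 (cd h 0) (cd h 1) (cd h 5) (cd h 6) (run 5 h) = true := by
  have h1 := code_run_ne (h := h) (p := 5) (by norm_num)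
  have h2 := fun i => code_run_eq (h := h) (p := 5) (i := i) (by norm_num)
  obtain ⟨r, hrr⟩ : ∃ r, r = run 5 h := ⟨_, rfl⟩
  rw [← hrr] at h1 h2 ⊢
  match r, h1, h2 with
  | 0, h1, _ => simpa [cs5, ← Bool.not_eq_true, Nat.beq_eq] using h1
  | 1, h1, h2 =>
    have := h2 0 (by norm_num)
    simp only [cs5, Bool.and_eq_true, Bool.not_eq_true', ← Bool.not_eq_true, Nat.beq_eq]
    exact ⟨this, h1⟩
  | r + 2, _, h2 =>
    have := h2 0 (by omega)
    have h3 := h2 1 (by omega)
    simp only [cs5, Bool.and_eq_true, Nat.beq_eq]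
    exact ⟨this, h3⟩

theorem cs6_ok {h : List (Fin 5)} : cs6 (cd h 0) (cd h 6) (run 6 h) = true := by
  have h1 := code_run_ne (h := h) (p := 6) (by norm_num)
  have h2 := fun i => code_run_eq (h := h) (p := 6) (i := i) (by norm_num)
  obtain ⟨r, hrr⟩ : ∃ r, r = run 6 h := ⟨_, rfl⟩
  rw [← hrr] at h1 h2 ⊢
  match r, h1, h2 with
  | 0, h1, _ => simpa [cs6, ← Bool.not_eq_true, Nat.beq_eq] using h1
  | r + 1, _, h2 =>
    have := h2 0 (by omega)
    simp only [cs6, Nat.beq_eq]
    exact this

theorem cs7_ok {h : List (Fin 5)} : cs7 (cd h 6) (run 7 h) = true := by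
  have h2 := fun i => run_match (p := 7) (by norm_num) h i
  obtain ⟨r, hrr⟩ : ∃ r, r = run 7 h := ⟨_, rfl⟩
  rw [← hrr] at h2 ⊢
  match r, h2 with
  | 0, _ => rfl
  | r + 1, h2 =>
    have h3 := (h2 0 (by omega)).1
    have e := List.getElem?_eq_getElem (show 6 < h.length by omega)
    simp only [cs7, Nat.ble_eq, cd_of_some e]
    have := (h[6]).isLt
    omega

theorem mem3 {x : ℕ} (hx : x + 1 ≤ 3) : x ∈ [0, 1, 2] := by
  have : x ≤ 2 := by omega
  interval_cases x <;> simp

theorem mem4 {x : ℕ} (hx : x + 1 ≤ 4) : x ∈ [0, 1, 2, 3] := by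
  have : x ≤ 3 := by omega
  interval_cases x <;> simp

theorem mem5 {x : ℕ} (hx : x + 1 ≤ 5) : x ∈ [0, 1, 2, 3, 4] := by
  have : x ≤ 4 := by omega
  interval_cases x <;> simp

theorem mem6 {x : ℕ} (hx : x + 1 ≤ 6) : x ∈ [0, 1, 2, 3, 4, 5] := by
  have : x ≤ 5 := by omega
  interval_cases x <;> simp

theorem mem7 {x : ℕ} (hx : x + 1 ≤ 7) : x ∈ [0, 1, 2, 3, 4, 5, 6] := by
  have : x ≤ 6 := by omega
  interval_cases x <;> simp

theorem canon_step {h : List (Fin 5)} (hw : lwl (rc h 7) = true)
    (hr : ∀ d, 3 ≤ d → run d h + 1 ≤ d) (hp : PR h) (hs : Safe h) :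
    ∃ a b : Fin 5, a ≠ b ∧ Good h a ∧ Good h b := by
  have hp' := hp
  unfold PR pr at hp'
  simp only [Bool.and_eq_true] at hp'
  obtain ⟨k34, k35, k36, k37, k45, k46, k47, k56, k57, k67⟩ := hp'
  have hw' : lw (cd h 0) (cd h 1) (cd h 2) (cd h 3) (cd h 4) (cd h 5) (cd h 6) = true := hw
  simp only [lw, List.all_eq_true] at hw'
  have e3 := hw' (run 3 h) (mem3 (hr 3 (by norm_num)))
  rw [cs3_ok (hr 3 (by norm_num))] at e3
  simp only [Bool.not_true, Bool.false_or, List.all_eq_true] at e3
  have e4 := e3 (run 4 h) (mem4 (hr 4 (by norm_num)))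
  rw [cs4_ok (hr 4 (by norm_num)), k34] at e4
  simp only [Bool.and_self, Bool.not_true, Bool.false_or, List.all_eq_true] at e4
  have e5 := e4 (run 5 h) (mem5 (hr 5 (by norm_num)))
  rw [cs5_ok, k35, k45] at e5
  simp only [Bool.and_self, Bool.not_true, Bool.false_or, List.all_eq_true] at e5
  have e6 := e5 (run 6 h) (mem6 (hr 6 (by norm_num)))
  rw [cs6_ok, k36, k46, k56] at e6
  simp only [Bool.and_self, Bool.not_true, Bool.false_or, List.all_eq_true] at e6
  have e7 := e6 (run 7 h) (mem7 (hr 7 (by norm_num)))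
  rw [cs7_ok, k37, k47, k57, k67] at e7
  simp only [Bool.and_self, Bool.not_true, Bool.false_or] at e7
  unfold lf at e7
  have hs' := hs
  unfold Safe at hs'
  rw [hs'] at e7
  simp only [Bool.not_true, Bool.false_or] at e7
  rw [cnt_iff] at e7
  obtain ⟨a, b, hab, ha, hb⟩ := e7
  have key : ∀ a : Fin 5, gl (cd h 0) (cd h 1) (cd h 2) (cd h 3) (cd h 4) (cd h 5) (cd h 6)
      (run 3 h) (run 4 h) (run 5 h) (run 6 h) (run 7 h) a.val = true → Good h a := by
    intro a ha
    unfold gl at ha
    simp only [Bool.and_eq_true, List.all_eq_true] at ha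
    refine ⟨ha.1, fun b hb => ?_⟩
    have h1 := ha.2 b.val (mem_letters b.isLt)
    unfold ck at h1
    unfold PR at hb
    unfold Safe
    rw [nr_eq h a b (p := 3) (by norm_num), nr_eq h a b (p := 4) (by norm_num),
      nr_eq h a b (p := 5) (by norm_num), nr_eq h a b (p := 6) (by norm_num),
      nr_eq h a b (p := 7) (by norm_num)] at hb ⊢
    rw [hb] at h1
    have hcd : ∀ i, cd (b :: a :: h) (i + 2) = cd h i := by
      intro i
      simp [cd]
    have h0 : cd (b :: a :: h) 0 = b.val := by simp [cd]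
    have h1' : cd (b :: a :: h) 1 = a.val := by simp [cd]
    have h2 : cd (b :: a :: h) 2 = cd h 0 := hcd 0
    have h3 : cd (b :: a :: h) 3 = cd h 1 := hcd 1
    have h4 : cd (b :: a :: h) 4 = cd h 2 := hcd 2
    have h5 : cd (b :: a :: h) 5 = cd h 3 := hcd 3
    have h6 : cd (b :: a :: h) 6 = cd h 4 := hcd 4
    rw [h0, h1', h2, h3, h4, h5, h6]
    simpa using h1
  exact ⟨a, b, hab, key a ha, key b hb⟩

/-- at a safe history Player 1 has two good moves -/
theorem local_step {τ : List (Fin 5) → Fin 5} {n : ℕ} {s : List (Fin 5)} (hs : s ∈ S τ n)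
    (hsafe : Safe (play τ s)) :
    ∃ a b : Fin 5, a ≠ b ∧ Good (play τ s) a ∧ Good (play τ s) b := by
  obtain ⟨e, he⟩ := exists_canon (legal_play hs)
  obtain ⟨a, b, hab, ha, hb⟩ := canon_step he
    (fun d hd => by rw [run_map _ _ e.injective]; exact (run_play hs).2.2 d hd)
    ((PR_map e _).2 (PR_play hs)) ((Safe_map e _).2 hsafe)
  refine ⟨e.symm a, e.symm b, fun h => hab (e.symm.injective h), ?_, ?_⟩
  · apply Good_map e
    rw [Equiv.apply_symm_apply]; exact ha
  · apply Good_map e
    rw [Equiv.apply_symm_apply]; exact hb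

end Pool.Agent.U373.Game
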