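import Mathlib

set_option autoImplicit false

/-!
# The finite check for the lags `8, ..., 12`
-/

namespace Pool.Agent.U373.Game

/-- The value (times `10000`) of a history whose runs with the lags `8, ..., 12` are
`r8, ..., r12`. -/
def FF (r8 r9 r10 r11 r12 : ℕ) : ℕ :=
  if 6 ≤ r8 ∨ 7 ≤ r9 ∨ 8 ≤ r10 then 6153
  else if 4 ≤ r8 ∨ 5 ≤ r9 ∨ 6 ≤ r10 then 8536
  else if 9 ≤ r11 ∨ 10 ≤ r12 then (if 2 ≤ r8 then 5252 else 6153)
  else if 7 ≤ r11 ∨ 8 ≤ r12 then 7635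
  else if 5 ≤ r11 ∨ 6 ≤ r12 ∨ (2 ≤ r8 ∧ (3 ≤ r11 ∨ 4 ≤ r12)) then 8547
  else 10000

/-- the same function for fast evaluation -/
def FB (r8 r9 r10 r11 r12 : ℕ) : ℕ :=
  cond (Nat.ble 6 r8 || (Nat.ble 7 r9 || Nat.ble 8 r10)) 6153
  (cond (Nat.ble 4 r8 || (Nat.ble 5 r9 || Nat.ble 6 r10)) 8536
  (cond (Nat.ble 9 r11 || Nat.ble 10 r12) (cond (Nat.ble 2 r8) 5252 6153)
  (cond (Nat.ble 7 r11 || Nat.ble 8 r12) 7635
  (cond (Nat.ble 5 r11 || (Nat.ble 6 r12 || (Nat.ble 2 r8 && (Nat.ble 3 r11 || Nat.ble 4 r12))))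
    8547 10000))))

/-- one of the two numbers is at most `k` -/
def lq (k r s : ℕ) : Bool := Nat.ble r k || Nat.ble s k

/-- the pair conditions for the runs -/
def pq (r8 r9 r10 r11 r12 : ℕ) : Bool :=
  lq 1 r8 r9 && (lq 1 r8 r10 && (lq 2 r8 r11 && (lq 3 r8 r12 && (lq 0 r9 r10 && (lq 0 r9 r11 &&
  (lq 1 r9 r12 && (lq 1 r10 r11 && (lq 1 r10 r12 && lq 0 r11 r12))))))))

/-- the possible reduced runs of a child -/
def op (i m r : ℕ) : List ℕ := cond (Nat.beq i m) [0, r + 2] [0]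

/-- a value at least `v`... is reached by all possible children -/
def allc (i m8 m9 m10 m11 m12 r8 r9 r10 r11 r12 : ℕ) (f : ℕ → Bool) : Bool :=
  (op i m8 r8).all fun c8 => (op i m9 r9).all fun c9 => (op i m10 r10).all fun c10 =>
  (op i m11 r11).all fun c11 => (op i m12 r12).all fun c12 =>
  !(pq c8 c9 c10 c11 c12) || f (FB c8 c9 c10 c11 c12)

/-- the letter `i` is killed -/
def kl (i m8 m9 m10 m11 m12 r8 r9 r10 r11 r12 : ℕ) : Bool :=
  (Nat.beq i m8 && Nat.ble 6 r8) || ((Nat.beq i m9 && Nat.ble 7 r9) ||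
  ((Nat.beq i m10 && Nat.ble 8 r10) || ((Nat.beq i m11 && Nat.ble 9 r11) ||
  (Nat.beq i m12 && Nat.ble 10 r12))))

/-- `f` holds for all possible values of the child number `i` -/
def allv (i m8 m9 m10 m11 m12 r8 r9 r10 r11 r12 : ℕ) (f : ℕ → Bool) : Bool :=
  cond (kl i m8 m9 m10 m11 m12 r8 r9 r10 r11 r12) (f 0)
    (allc i m8 m9 m10 m11 m12 r8 r9 r10 r11 r12 f)

/-- the inequality -/
def iq (F v w : ℕ) : Bool :=
  Nat.ble (13 * F) (8 * v) || (Nat.ble (13 * F) (8 * w) || Nat.ble (13 * F + 8 * 2282) (8 * (v + w)))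

/-- the letters which can be matched: all if `b`, otherwise only the dummy value `0` -/
def ml (b : Bool) : List ℕ := cond b [0, 1, 2] [0]

/-- the check -/
def lc : Bool :=
  (List.range 8).all fun r8 =>
  (List.range 9).all fun r9 => !(lq 1 r8 r9) ||
  (List.range 10).all fun r10 => !(lq 1 r8 r10 && lq 0 r9 r10) ||
  (List.range 11).all fun r11 => !(lq 2 r8 r11 && (lq 0 r9 r11 && lq 1 r10 r11)) ||
  (List.range 12).all fun r12 => !(lq 3 r8 r12 && (lq 1 r9 r12 && (lq 1 r10 r12 && lq 0 r11 r12))) ||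
  [0, 1, 2].all fun m8 =>
  (ml (Nat.ble 1 r9 && Nat.ble r8 0)).all fun m9 =>
  (ml (Nat.ble 1 r10 && (Nat.ble r9 0 && Nat.ble r8 1))).all fun m10 =>
  (ml (Nat.ble 1 r11 && (Nat.ble r10 0 && Nat.ble r9 1))).all fun m11 =>
  (ml (Nat.ble 1 r12 && (Nat.ble r11 0 && Nat.ble r10 1))).all fun m12 =>
  allv 1 m8 m9 m10 m11 m12 r8 r9 r10 r11 r12 fun v =>
  allv 2 m8 m9 m10 m11 m12 r8 r9 r10 r11 r12 fun w =>
  iq (FB r8 r9 r10 r11 r12) v w

theorem lc_ok : lc = true := by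
  decide +kernel

end Pool.Agent.U373.Game
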