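import Mathlib
import Pool.Agent.U373.Game.LongCheck

set_option autoImplicit false

/-!
# What the finite check for the lags `8, ..., 12` says
-/

namespace Pool.Agent.U373.Game

theorem FB_eq (r8 r9 r10 r11 r12 : ℕ) : FB r8 r9 r10 r11 r12 = FF r8 r9 r10 r11 r12 := by
  simp only [FB, FF, Bool.cond_eq_ite, Bool.or_eq_true, Bool.and_eq_true, Nat.ble_eq]

/-- the pair conditions as a proposition -/
def PQ (r : ℕ → ℕ) : Prop :=
  (r 8 ≤ 1 ∨ r 9 ≤ 1) ∧ (r 8 ≤ 1 ∨ r 10 ≤ 1) ∧ (r 8 ≤ 2 ∨ r 11 ≤ 2) ∧ (r 8 ≤ 3 ∨ r 12 ≤ 3) ∧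
  (r 9 ≤ 0 ∨ r 10 ≤ 0) ∧ (r 9 ≤ 0 ∨ r 11 ≤ 0) ∧ (r 9 ≤ 1 ∨ r 12 ≤ 1) ∧ (r 10 ≤ 1 ∨ r 11 ≤ 1) ∧
  (r 10 ≤ 1 ∨ r 12 ≤ 1) ∧ (r 11 ≤ 0 ∨ r 12 ≤ 0)

theorem pq_iff (r : ℕ → ℕ) : pq (r 8) (r 9) (r 10) (r 11) (r 12) = true ↔ PQ r := by
  simp only [pq, lq, PQ, Bool.or_eq_true, Bool.and_eq_true, Nat.ble_eq]

/-- the value of a run function -/
def Fr (r : ℕ → ℕ) : ℕ := FF (r 8) (r 9) (r 10) (r 11) (r 12)

theorem Fr_le (r : ℕ → ℕ) : Fr r ≤ 10000 := by
  unfold Fr FF
  split_ifs <;> norm_num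

/-- small runs do not matter -/
def red (c : ℕ → ℕ) (p : ℕ) : ℕ := if c p ≤ 1 ∨ (9 ≤ p ∧ c p ≤ 2) then 0 else c p

theorem Fr_red (c : ℕ → ℕ) : Fr (red c) = Fr c := by
  have h8 : ∀ k, 2 ≤ k → (k ≤ red c 8 ↔ k ≤ c 8) := by
    intro k hk; unfold red; split_ifs <;> omega
  have h9 : ∀ p, 9 ≤ p → ∀ k, 3 ≤ k → (k ≤ red c p ↔ k ≤ c p) := by
    intro p hp k hk; unfold red; split_ifs <;> omega
  unfold Fr FF
  simp only [h8 6 (by norm_num), h8 4 (by norm_num), h8 2 (by norm_num),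
    h9 9 (by norm_num) 7 (by norm_num), h9 9 (by norm_num) 5 (by norm_num),
    h9 10 (by norm_num) 8 (by norm_num), h9 10 (by norm_num) 6 (by norm_num),
    h9 11 (by norm_num) 9 (by norm_num), h9 11 (by norm_num) 7 (by norm_num),
    h9 11 (by norm_num) 5 (by norm_num), h9 11 (by norm_num) 3 (by norm_num),
    h9 12 (by norm_num) 10 (by norm_num), h9 12 (by norm_num) 8 (by norm_num),
    h9 12 (by norm_num) 6 (by norm_num), h9 12 (by norm_num) 4 (by norm_num)]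

theorem PQ_red {c : ℕ → ℕ} (h : PQ c) : PQ (red c) := by
  have : ∀ p, red c p ≤ c p := by
    intro p; unfold red; split_ifs <;> omega
  have a8 := this 8
  have a9 := this 9
  have a10 := this 10
  have a11 := this 11
  have a12 := this 12
  unfold PQ at h ⊢
  refine ⟨?_, ?_, ?_, ?_, ?_, ?_, ?_, ?_, ?_, ?_⟩ <;> omega

/-- the lag `p` kills the letter number `i` -/
def Kill (r m : ℕ → ℕ) (i : ℕ) : Prop := ∃ p, 8 ≤ p ∧ p ≤ 12 ∧ m p = i ∧ p ≤ r p + 2

/-- the possible runs of the child number `i` -/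
def Ch (r m : ℕ → ℕ) (i : ℕ) (c : ℕ → ℕ) : Prop :=
  PQ c ∧ ∀ p, 8 ≤ p → p ≤ 12 → c p ≤ 1 ∨ (m p = i ∧ c p = r p + 2)

/-- a possible value of the child number `i` -/
def Val (r m : ℕ → ℕ) (i : ℕ) (v : ℕ) : Prop :=
  (Kill r m i ∧ v = 0) ∨ (¬ Kill r m i ∧ ∃ c, Ch r m i c ∧ v = Fr c)

/-- irrelevant matches are removed -/
def rm (r m : ℕ → ℕ) (p : ℕ) : ℕ := if 9 ≤ p ∧ r p = 0 then 0 else m p

theorem mem_op {i m r x : ℕ} (h : x = 0 ∨ (m = i ∧ x = r + 2)) : x ∈ op i m r := by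
  unfold op
  rcases h with rfl | ⟨rfl, rfl⟩
  · cases Nat.beq i m <;> simp
  · simp

theorem allv_spec {i : ℕ} (hi : 1 ≤ i) {r m : ℕ → ℕ} {f : ℕ → Bool}
    (h : allv i (rm r m 8) (rm r m 9) (rm r m 10) (rm r m 11) (rm r m 12)
      (r 8) (r 9) (r 10) (r 11) (r 12) f = true) {v : ℕ} (hv : Val r m i v) : f v = true := by
  have hk : kl i (rm r m 8) (rm r m 9) (rm r m 10) (rm r m 11) (rm r m 12)
      (r 8) (r 9) (r 10) (r 11) (r 12) = true ↔ Kill r m i := by
    simp only [kl, Bool.or_eq_true, Bool.and_eq_true, Nat.ble_eq, Nat.beq_eq]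
    unfold Kill
    constructor
    · rintro (⟨h1, h2⟩ | ⟨h1, h2⟩ | ⟨h1, h2⟩ | ⟨h1, h2⟩ | ⟨h1, h2⟩)
      · exact ⟨8, by norm_num, by norm_num, by unfold rm at h1; split_ifs at h1 <;> omega, by omega⟩
      · exact ⟨9, by norm_num, by norm_num, by unfold rm at h1; split_ifs at h1 <;> omega, by omega⟩
      · exact ⟨10, by norm_num, by norm_num, by unfold rm at h1; split_ifs at h1 <;> omega, by omega⟩
      · exact ⟨11, by norm_num, by norm_num, by unfold rm at h1; split_ifs at h1 <;> omega, by omega⟩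
      · exact ⟨12, by norm_num, by norm_num, by unfold rm at h1; split_ifs at h1 <;> omega, by omega⟩
    · rintro ⟨p, h1, h2, h3, h4⟩
      have hrm : rm r m p = i := by
        unfold rm
        split_ifs with h
        · omega
        · exact h3
      interval_cases p
      · exact Or.inl ⟨hrm.symm, by omega⟩
      · exact Or.inr (Or.inl ⟨hrm.symm, by omega⟩)
      · exact Or.inr (Or.inr (Or.inl ⟨hrm.symm, by omega⟩))
      · exact Or.inr (Or.inr (Or.inr (Or.inl ⟨hrm.symm, by omega⟩)))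
      · exact Or.inr (Or.inr (Or.inr (Or.inr ⟨hrm.symm, by omega⟩)))
  unfold allv at h
  rcases hv with ⟨h1, rfl⟩ | ⟨h1, c, hc, rfl⟩
  · rw [hk.2 h1] at h
    exact h
  · have : kl i (rm r m 8) (rm r m 9) (rm r m 10) (rm r m 11) (rm r m 12)
      (r 8) (r 9) (r 10) (r 11) (r 12) = false := by
      rw [← Bool.not_eq_true, hk]; exact h1
    rw [this] at h
    simp only [cond_false, allc, List.all_eq_true] at h
    have hop : ∀ p, 8 ≤ p → p ≤ 12 → red c p ∈ op i (rm r m p) (r p) := by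
      intro p hp1 hp2
      apply mem_op
      rcases hc.2 p hp1 hp2 with h2 | ⟨h2, h3⟩
      · left; unfold red; rw [if_pos (Or.inl h2)]
      · by_cases h4 : c p ≤ 1 ∨ (9 ≤ p ∧ c p ≤ 2)
        · left; unfold red; rw [if_pos h4]
        · right
          refine ⟨?_, ?_⟩
          · unfold rm
            rw [if_neg (by omega)]
            exact h2
          · unfold red; rw [if_neg h4]; exact h3
    have := h _ (hop 8 (by norm_num) (by norm_num)) _ (hop 9 (by norm_num) (by norm_num)) _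
      (hop 10 (by norm_num) (by norm_num)) _ (hop 11 (by norm_num) (by norm_num)) _
      (hop 12 (by norm_num) (by norm_num))
    rw [(pq_iff (red c)).2 (PQ_red hc.1), FB_eq] at this
    rw [← Fr_red]
    unfold Fr
    simpa using this

theorem mem_ml {b : Bool} {x : ℕ} (hx : x ≤ 2) (h : x = 0 ∨ b = true) : x ∈ ml b := by
  rcases h with rfl | rfl
  · cases b <;> simp [ml]
  · have : x = 0 ∨ x = 1 ∨ x = 2 := by omega
    rcases this with rfl | rfl | rfl <;> simp [ml]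

/-- a lag whose predicted letter is one of the two most recent letters is not matched -/
def Allow (r m : ℕ → ℕ) : Prop :=
  (∀ p, m p ≤ 2) ∧ (m 9 ≠ 0 → r 8 = 0) ∧ (m 10 ≠ 0 → r 9 = 0 ∧ r 8 ≤ 1) ∧
    (m 11 ≠ 0 → r 10 = 0 ∧ r 9 ≤ 1) ∧ (m 12 ≠ 0 → r 11 = 0 ∧ r 10 ≤ 1)

theorem long_step {r m : ℕ → ℕ} (hr : PQ r) (hlt : ∀ p, 8 ≤ p → p ≤ 12 → r p < p)
    (hm : Allow r m) {v w : ℕ} (hv : Val r m 1 v) (hw : Val r m 2 w) :
    13 * Fr r ≤ 8 * v ∨ 13 * Fr r ≤ 8 * w ∨ 13 * Fr r + 8 * 2282 ≤ 8 * (v + w) := by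
  have hlc := lc_ok
  simp only [lc, List.all_eq_true, List.mem_range] at hlc
  obtain ⟨q1, q2, q3, q4, q5, q6, q7, q8, q9, q10⟩ := hr
  obtain ⟨a1, a2, a3, a4, a5⟩ := hm
  have e1 := hlc (r 8) (hlt 8 (by norm_num) (by norm_num)) (r 9)
    (hlt 9 (by norm_num) (by norm_num))
  have c1 : lq 1 (r 8) (r 9) = true := by
    simp only [lq, Bool.or_eq_true, Nat.ble_eq]; exact q1
  rw [c1] at e1
  simp only [Bool.not_true, Bool.false_or, List.all_eq_true, List.mem_range] at e1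
  have e2 := e1 (r 10) (hlt 10 (by norm_num) (by norm_num))
  have c2 : (lq 1 (r 8) (r 10) && lq 0 (r 9) (r 10)) = true := by
    simp only [lq, Bool.or_eq_true, Bool.and_eq_true, Nat.ble_eq]; exact ⟨q2, q5⟩
  rw [c2] at e2
  simp only [Bool.not_true, Bool.false_or, List.all_eq_true, List.mem_range] at e2
  have e3 := e2 (r 11) (hlt 11 (by norm_num) (by norm_num))
  have c3 : (lq 2 (r 8) (r 11) && (lq 0 (r 9) (r 11) && lq 1 (r 10) (r 11))) = true := by
    simp only [lq, Bool.or_eq_true, Bool.and_eq_true, Nat.ble_eq]; exact ⟨q3, q6, q8⟩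
  rw [c3] at e3
  simp only [Bool.not_true, Bool.false_or, List.all_eq_true, List.mem_range] at e3
  have e4 := e3 (r 12) (hlt 12 (by norm_num) (by norm_num))
  have c4 : (lq 3 (r 8) (r 12) && (lq 1 (r 9) (r 12) && (lq 1 (r 10) (r 12) &&
      lq 0 (r 11) (r 12)))) = true := by
    simp only [lq, Bool.or_eq_true, Bool.and_eq_true, Nat.ble_eq]; exact ⟨q4, q7, q9, q10⟩
  rw [c4] at e4
  simp only [Bool.not_true, Bool.false_or, List.all_eq_true] at e4
  have k8 : rm r m 8 ∈ [0, 1, 2] := by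
    have := a1 8
    have : rm r m 8 = 0 ∨ rm r m 8 = 1 ∨ rm r m 8 = 2 := by
      unfold rm; split_ifs <;> omega
    rcases this with h | h | h <;> rw [h] <;> simp
  have k9 : rm r m 9 ∈ ml (Nat.ble 1 (r 9) && Nat.ble (r 8) 0) := by
    apply mem_ml
    · unfold rm; split_ifs
      · omega
      · exact a1 9
    · simp only [Bool.and_eq_true, Nat.ble_eq]
      unfold rm
      split_ifs with h
      · exact Or.inl rfl
      · omega
  have k10 : rm r m 10 ∈ ml (Nat.ble 1 (r 10) && (Nat.ble (r 9) 0 && Nat.ble (r 8) 1)) := by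
    apply mem_ml
    · unfold rm; split_ifs
      · omega
      · exact a1 10
    · simp only [Bool.and_eq_true, Nat.ble_eq]
      unfold rm
      split_ifs with h
      · exact Or.inl rfl
      · omega
  have k11 : rm r m 11 ∈ ml (Nat.ble 1 (r 11) && (Nat.ble (r 10) 0 && Nat.ble (r 9) 1)) := by
    apply mem_ml
    · unfold rm; split_ifs
      · omega
      · exact a1 11
    · simp only [Bool.and_eq_true, Nat.ble_eq]
      unfold rm
      split_ifs with h
      · exact Or.inl rfl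
      · omega
  have k12 : rm r m 12 ∈ ml (Nat.ble 1 (r 12) && (Nat.ble (r 11) 0 && Nat.ble (r 10) 1)) := by
    apply mem_ml
    · unfold rm; split_ifs
      · omega
      · exact a1 12
    · simp only [Bool.and_eq_true, Nat.ble_eq]
      unfold rm
      split_ifs with h
      · exact Or.inl rfl
      · omega
  have e5 := e4 _ k8 _ k9 _ k10 _ k11 _ k12
  have e6 := allv_spec (i := 1) le_rfl e5 hv
  have e7 := allv_spec (i := 2) (by norm_num) e6 hw
  rw [FB_eq] at e7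
  simp only [iq, Bool.or_eq_true, Nat.ble_eq] at e7
  exact e7

end Pool.Agent.U373.Game
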