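import Mathlib
import Pool.Agent.U373.Game.LocalSpec
import Pool.Agent.U373.Game.LongSpec

set_option autoImplicit false

/-!
# The potential of a history
-/

namespace Pool.Agent.U373.Game

open H42Game Finset

/-- the run with lag `p` after one more round -/
theorem run_child {c : ℕ} {p : ℕ} (_hp : 2 ≤ p) (h : List (Fin c)) (a b : Fin c) :
    (run p (b :: a :: h) ≤ 1) ∨ (h[p - 1]? = some a ∧ run p (b :: a :: h) = run p h + 2) := by
  rw [run_cons, run_cons]
  split_ifs with h1 h2
  · exact Or.inr ⟨h2, rfl⟩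
  · left; omega
  · left; omega

theorem run_child_le {c : ℕ} {p : ℕ} (h : List (Fin c)) (a b : Fin c) :
    run p (b :: a :: h) ≤ run p h + 2 := by
  rw [run_cons, run_cons]
  split_ifs <;> omega

theorem mu_le {a b : ℕ} (h : b ≤ a + 1) : ((8 : ℝ) / 13) ^ a ≤ 13 / 8 * (8 / 13) ^ b := by
  have h1 : ((8 : ℝ) / 13) ^ (a + 1) ≤ (8 / 13) ^ b :=
    pow_le_pow_of_le_one (by norm_num) (by norm_num) h
  rw [pow_succ] at h1
  linarith

/-- the weight of the lag `p` -/
noncomputable def wt {c : ℕ} (p : ℕ) (h : List (Fin c)) : ℝ := (8 / 13) ^ ((p - run p h + 1) / 2)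

/-- the weight of the lag `p` after the move `a` -/
noncomputable def wy {c : ℕ} (p : ℕ) (h : List (Fin c)) (a : Fin c) : ℝ :=
  if h[p - 1]? = some a then 13 / 8 * wt p h else (8 / 13) ^ (p / 2)

theorem wt_pos {c : ℕ} (p : ℕ) (h : List (Fin c)) : 0 < wt p h := by unfold wt; positivity

theorem wy_pos {c : ℕ} (p : ℕ) (h : List (Fin c)) (a : Fin c) : 0 < wy p h a := by
  unfold wy wt; split_ifs <;> positivity

theorem mu_half_le {c : ℕ} (p : ℕ) (h : List (Fin c)) :
    ((8 : ℝ) / 13) ^ (p / 2) ≤ 13 / 8 * wt p h := mu_le (by omega)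

theorem wt_child {c : ℕ} {p : ℕ} (hp : 2 ≤ p) (h : List (Fin c)) (a b : Fin c) :
    wt p (b :: a :: h) ≤ wy p h a := by
  unfold wy
  split_ifs with h1
  · apply mu_le
    have := run_child_le (p := p) h a b
    omega
  · unfold wt
    apply pow_le_pow_of_le_one (by norm_num) (by norm_num)
    rcases run_child hp h a b with h2 | h2
    · omega
    · exact absurd h2.1 h1

theorem wy_le {c : ℕ} (p : ℕ) (h : List (Fin c)) (a : Fin c) : wy p h a ≤ 13 / 8 * wt p h := by
  unfold wy
  split_ifs with h1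
  · exact le_rfl
  · exact mu_half_le p h

theorem wy_add {c : ℕ} (p : ℕ) (h : List (Fin c)) {a b : Fin c} (hab : a ≠ b) :
    wy p h a + wy p h b ≤ 13 / 8 * wt p h + (8 / 13) ^ (p / 2) := by
  by_cases h1 : h[p - 1]? = some a
  · have h2 : h[p - 1]? ≠ some b := by
      rw [h1]
      intro h3
      exact hab (Option.some.inj h3)
    rw [wy, if_pos h1, wy, if_neg h2]
  · have := wy_le p h b
    rw [wy, if_neg h1]
    linarith

theorem wy_act {c : ℕ} {p : ℕ} (hp : 3 ≤ p) {h : List (Fin c)} {a : Fin c}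
    (hr : run p h + 1 ≤ p) (hA : Act p h) (ha : h[p - 1]? = some a) : wy p h a = 1 := by
  rw [act_iff hp] at hA
  rw [wy, if_pos ha, wt, show (p - run p h + 1) / 2 = 1 by omega]
  norm_num

theorem sum_mu (k : ℕ) : ∑ p ∈ Ico 13 (13 + 2 * k), ((8 : ℝ) / 13) ^ (p / 2) =
    21 / 5 * ((8 / 13) ^ 6 - (8 / 13) ^ (6 + k)) := by
  induction k with
  | zero => simp
  | succ k ih =>
    rw [show 13 + 2 * (k + 1) = 13 + 2 * k + 1 + 1 by ring, sum_Ico_succ_top (by omega),
      sum_Ico_succ_top (by omega), ih, show (13 + 2 * k) / 2 = 6 + k by omega,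
      show (13 + 2 * k + 1) / 2 = 6 + k + 1 by omega, show 6 + (k + 1) = 6 + k + 1 by ring]
    rw [pow_succ]
    ring

theorem sum_mu_le (K : ℕ) : ∑ p ∈ Ico 13 K, ((8 : ℝ) / 13) ^ (p / 2) ≤ 2282 / 10000 := by
  have h1 : ∑ p ∈ Ico 13 K, ((8 : ℝ) / 13) ^ (p / 2) ≤
      ∑ p ∈ Ico 13 (13 + 2 * K), ((8 : ℝ) / 13) ^ (p / 2) := by
    apply sum_le_sum_of_subset_of_nonneg
    · apply Ico_subset_Ico le_rfl
      omega
    · intro i _ _
      positivity
  rw [sum_mu] at h1
  have h2 : (0 : ℝ) < (8 / 13) ^ (6 + K) := by positivity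
  have h3 : (21 : ℝ) / 5 * (8 / 13) ^ 6 ≤ 2282 / 10000 := by norm_num
  linarith

/-- the weight of all lags `13 ≤ p < K` -/
noncomputable def tl {c : ℕ} (K : ℕ) (h : List (Fin c)) : ℝ := ∑ p ∈ Ico 13 K, wt p h

/-- the weight of all lags `13 ≤ p < K` after the move `a` -/
noncomputable def ty {c : ℕ} (K : ℕ) (h : List (Fin c)) (a : Fin c) : ℝ :=
  ∑ p ∈ Ico 13 K, wy p h a

theorem ty_nonneg {c : ℕ} (K : ℕ) (h : List (Fin c)) (a : Fin c) : 0 ≤ ty K h a :=
  sum_nonneg fun p _ => (wy_pos p h a).le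

theorem tl_child {c : ℕ} (K : ℕ) (h : List (Fin c)) (a b : Fin c) :
    tl K (b :: a :: h) ≤ ty K h a := by
  apply sum_le_sum
  intro p hp
  rw [mem_Ico] at hp
  exact wt_child (by omega) h a b

theorem ty_le {c : ℕ} (K : ℕ) (h : List (Fin c)) (a : Fin c) : ty K h a ≤ 13 / 8 * tl K h := by
  unfold ty tl
  rw [mul_sum]
  exact sum_le_sum fun p _ => wy_le p h a

theorem ty_add {c : ℕ} (K : ℕ) (h : List (Fin c)) {a b : Fin c} (hab : a ≠ b) :
    ty K h a + ty K h b ≤ 13 / 8 * tl K h + 2282 / 10000 := by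
  have h1 : ty K h a + ty K h b ≤ ∑ p ∈ Ico 13 K, (13 / 8 * wt p h + (8 / 13) ^ (p / 2)) := by
    unfold ty
    rw [← sum_add_distrib]
    exact sum_le_sum fun p _ => wy_add p h hab
  rw [sum_add_distrib, ← mul_sum] at h1
  have := sum_mu_le K
  unfold tl
  linarith

theorem ty_act {c : ℕ} {K p : ℕ} (hp : 13 ≤ p) (hpK : p < K) {h : List (Fin c)} {a : Fin c}
    (hr : run p h + 1 ≤ p) (hA : Act p h) (ha : h[p - 1]? = some a) : 1 ≤ ty K h a := by
  rw [← wy_act (by omega) hr hA ha]
  exact single_le_sum (f := fun p => wy p h a) (fun q _ => (wy_pos q h a).le)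
    (mem_Ico.2 ⟨hp, hpK⟩)

/-- the potential -/
noncomputable def Pot (K : ℕ) (h : List (Fin 5)) : ℝ :=
  (Fr (fun p => run p h) : ℝ) / 10000 - tl K h

open Classical in
/-- the potential, replaced by `0` if it is negative or if the history is not safe -/
noncomputable def Pp (K : ℕ) (h : List (Fin 5)) : ℝ := if Safe h then max 0 (Pot K h) else 0

theorem Pp_nonneg (K : ℕ) (h : List (Fin 5)) : 0 ≤ Pp K h := by
  unfold Pp
  split_ifs
  · exact le_max_left _ _
  · exact le_rfl

theorem Pp_ge {K : ℕ} {h : List (Fin 5)} (hs : Safe h) : Pot K h ≤ Pp K h := by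
  unfold Pp
  rw [if_pos hs]
  exact le_max_right _ _

theorem PQ_play {τ : List (Fin 5) → Fin 5} {n : ℕ} {s : List (Fin 5)} (hs : s ∈ S τ n) :
    PQ (fun p => run p (play τ s)) := by
  have k := fun p q (hp : 1 ≤ p) (hpq : p < q) => run_pair hs hp hpq
  refine ⟨?_, ?_, ?_, ?_, ?_, ?_, ?_, ?_, ?_, ?_⟩ <;> rw [← min_le_iff]
  · exact (k 8 9 (by norm_num) (by norm_num)).trans (by decide)
  · exact (k 8 10 (by norm_num) (by norm_num)).trans (by decide)
  · exact (k 8 11 (by norm_num) (by norm_num)).trans (by decide)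
  · exact (k 8 12 (by norm_num) (by norm_num)).trans (by decide)
  · exact (k 9 10 (by norm_num) (by norm_num)).trans (by decide)
  · exact (k 9 11 (by norm_num) (by norm_num)).trans (by decide)
  · exact (k 9 12 (by norm_num) (by norm_num)).trans (by decide)
  · exact (k 10 11 (by norm_num) (by norm_num)).trans (by decide)
  · exact (k 10 12 (by norm_num) (by norm_num)).trans (by decide)
  · exact (k 11 12 (by norm_num) (by norm_num)).trans (by decide)

/-- which of the two letters is predicted by lag `p` -/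
def mm (h : List (Fin 5)) (a b : Fin 5) (p : ℕ) : ℕ :=
  if h[p - 1]? = some a then 1 else if h[p - 1]? = some b then 2 else 0

theorem mm_one {h : List (Fin 5)} {a b : Fin 5} {p : ℕ} :
    mm h a b p = 1 ↔ h[p - 1]? = some a := by
  unfold mm
  split_ifs with h1 h2 <;> simp [h1]

theorem mm_two {h : List (Fin 5)} {a b : Fin 5} (hab : a ≠ b) {p : ℕ} :
    mm h a b p = 2 ↔ h[p - 1]? = some b := by
  unfold mm
  split_ifs with h1 h2
  · rw [h1]
    simp [hab]
  · simp [h2]
  · simp [h2]

theorem mm_ne {h : List (Fin 5)} {a b : Fin 5} {p : ℕ} (hm : mm h a b p ≠ 0) :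
    h[p - 1]? = some a ∨ h[p - 1]? = some b := by
  unfold mm at hm
  split_ifs at hm with h1 h2
  · exact Or.inl h1
  · exact Or.inr h2
  · exact absurd rfl hm

theorem Allow_mm {h : List (Fin 5)} {a b : Fin 5} (ha : V h a) (hb : V h b) :
    Allow (fun p => run p h) (mm h a b) := by
  obtain ⟨a0, a1, -⟩ := V_spec ha
  obtain ⟨b0, b1, -⟩ := V_spec hb
  have hz : ∀ p, 2 ≤ p → mm h a b p ≠ 0 → run (p - 1) h = 0 := by
    intro p hp hm
    by_contra hcon
    have h1 := (run_match (p := p - 1) (by omega) h 0 (by omega)).2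
    rw [Nat.zero_add] at h1
    rcases mm_ne hm with h2 | h2
    · exact a0 (by rw [h1, h2])
    · exact b0 (by rw [h1, h2])
  have ho : ∀ p, 3 ≤ p → mm h a b p ≠ 0 → run (p - 2) h ≤ 1 := by
    intro p hp hm
    by_contra hcon
    have h1 := (run_match (p := p - 2) (by omega) h 1 (by omega)).2
    rw [show 1 + (p - 2) = p - 1 by omega] at h1
    rcases mm_ne hm with h2 | h2
    · exact a1 (by rw [h1, h2])
    · exact b1 (by rw [h1, h2])
  refine ⟨?_, fun h1 => hz 9 (by norm_num) h1,
    fun h1 => ⟨hz 10 (by norm_num) h1, ho 10 (by norm_num) h1⟩,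
    fun h1 => ⟨hz 11 (by norm_num) h1, ho 11 (by norm_num) h1⟩,
    fun h1 => ⟨hz 12 (by norm_num) h1, ho 12 (by norm_num) h1⟩⟩
  intro p
  unfold mm
  split_ifs <;> omega

open Classical in
/-- contribution of a letter -/
noncomputable def ctr (τ : List (Fin 5) → Fin 5) (K : ℕ) (s : List (Fin 5)) (a : Fin 5) : ℝ :=
  if Bad (play τ s) a then 0 else Pp K (play τ (a :: s))

theorem ctr_nonneg (τ : List (Fin 5) → Fin 5) (K : ℕ) (s : List (Fin 5)) (a : Fin 5) :
    0 ≤ ctr τ K s a := by
  unfold ctr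
  split_ifs
  · exact le_rfl
  · exact Pp_nonneg _ _

/-- the contribution of a good letter -/
theorem ctr_good {τ : List (Fin 5) → Fin 5} {n K : ℕ} {s : List (Fin 5)} (hs : s ∈ S τ n)
    (hK : n + 2 ≤ K) {a : Fin 5} (hG : Good (play τ s) a) (m : ℕ → ℕ) (i : ℕ)
    (hm : ∀ p, m p = i ↔ (play τ s)[p - 1]? = some a) :
    ∃ v : ℕ, Val (fun p => run p (play τ s)) m i v ∧
      (v : ℝ) / 10000 - ty K (play τ s) a ≤ ctr τ K s a := by
  obtain ⟨-, -, h3⟩ := run_play hs
  have hty := ty_nonneg K (play τ s) a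
  by_cases hk : Kill (fun p => run p (play τ s)) m i
  · refine ⟨0, Or.inl ⟨hk, rfl⟩, ?_⟩
    have := ctr_nonneg τ K s a
    push_cast
    linarith
  · by_cases ht : ∃ p, 13 ≤ p ∧ Act p (play τ s) ∧ (play τ s)[p - 1]? = some a
    · obtain ⟨p, hp, hA, hpa⟩ := ht
      refine ⟨Fr (fun _ => 0), Or.inr ⟨hk, fun _ => 0, ⟨?_, ?_⟩, rfl⟩, ?_⟩
      · unfold PQ; simp
      · intro p _ _; left; norm_num
      · have h1 : 1 ≤ ty K (play τ s) a := by
          apply ty_act hp _ (h3 p (by omega)) hA hpa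
          have := hA.1
          rw [play_length, length_of_mem hs] at this
          omega
        have h2 := ctr_nonneg τ K s a
        have h4 : ((Fr (fun _ => 0) : ℕ) : ℝ) ≤ 10000 := by exact_mod_cast Fr_le _
        have h5 : ((Fr (fun _ => 0) : ℕ) : ℝ) / 10000 ≤ 1 := by
          rw [div_le_one (by norm_num)]; exact h4
        linarith
    · push Not at ht
      have hbad : ¬ Bad (play τ s) a := by
        obtain ⟨v0, v1, v2⟩ := V_spec hG.1
        rintro (hb | hb | ⟨p, hp, hA, hpa⟩)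
        · exact v0 hb
        · exact v1 hb
        · rcases Nat.lt_or_ge p 8 with h8 | h8
          · exact v2 p hp (by omega) ((act_iff hp _).1 hA) hpa
          · rcases Nat.lt_or_ge p 13 with h13 | h13
            · exact hk ⟨p, h8, by omega, (hm p).2 hpa, (act_iff hp _).1 hA⟩
            · exact ht p h13 hA hpa
      have hmem : a :: s ∈ S τ (n + 1) := mem_S_succ.2 ⟨s, hs, a, hbad, rfl⟩
      refine ⟨Fr (fun p => run p (play τ (a :: s))),
        Or.inr ⟨hk, fun p => run p (play τ (a :: s)), ⟨PQ_play hmem, ?_⟩, rfl⟩, ?_⟩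
      · intro p hp _
        rcases run_child (p := p) (by omega) (play τ s) a (τ (a :: play τ s)) with h1 | h1
        · exact Or.inl h1
        · exact Or.inr ⟨(hm p).2 h1.1, h1.2⟩
      · have h1 : ctr τ K s a = Pp K (play τ (a :: s)) := by
          unfold ctr; rw [if_neg hbad]
        rw [h1]
        have hsafe : Safe (play τ (a :: s)) := hG.2 _ (PR_play hmem)
        have h2 := Pp_ge (K := K) hsafe
        have h4 : tl K (play τ (a :: s)) ≤ ty K (play τ s) a :=
          tl_child K (play τ s) a (τ (a :: play τ s))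
        unfold Pot at h2
        linarith

theorem local_ineq {τ : List (Fin 5) → Fin 5} {n K : ℕ} {s : List (Fin 5)} (hs : s ∈ S τ n)
    (hK : n + 2 ≤ K) : 13 / 8 * Pp K (play τ s) ≤ ∑ a : Fin 5, ctr τ K s a := by
  have hnn : 0 ≤ ∑ a : Fin 5, ctr τ K s a := sum_nonneg fun a _ => ctr_nonneg τ K s a
  by_cases hsafe : Safe (play τ s)
  · have e : Pp K (play τ s) = max 0 (Pot K (play τ s)) := by
      unfold Pp; rw [if_pos hsafe]
    rw [e]
    rcases le_total (Pot K (play τ s)) 0 with h0 | h0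
    · rw [max_eq_left h0]
      linarith
    · rw [max_eq_right h0]
      obtain ⟨a, b, hab, ha, hb⟩ := local_step hs hsafe
      obtain ⟨v, hv, hv2⟩ := ctr_good hs hK ha (mm (play τ s) a b) 1 (fun p => mm_one)
      obtain ⟨w, hw, hw2⟩ := ctr_good hs hK hb (mm (play τ s) a b) 2 (fun p => mm_two hab)
      have hsum : ctr τ K s a + ctr τ K s b ≤ ∑ a : Fin 5, ctr τ K s a := by
        rw [← sum_pair hab]
        exact sum_le_sum_of_subset_of_nonneg (subset_univ _) fun i _ _ => ctr_nonneg τ K s i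
      have ha0 := ctr_nonneg τ K s a
      have hb0 := ctr_nonneg τ K s b
      have t1 := ty_le K (play τ s) a
      have t2 := ty_le K (play τ s) b
      have t3 := ty_add K (play τ s) hab
      obtain ⟨-, -, h3⟩ := run_play hs
      have hlt : ∀ p, 8 ≤ p → p ≤ 12 → (fun p => run p (play τ s)) p < p := by
        intro p hp _
        have := h3 p (by omega)
        simp only
        omega
      have key := long_step (PQ_play hs) hlt (Allow_mm ha.1 hb.1) hv hw
      unfold Pot
      rcases key with h | h | h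
      · have h' : (13 : ℝ) * (Fr (fun p => run p (play τ s)) : ℕ) ≤ 8 * (v : ℕ) := by
          exact_mod_cast h
        linarith
      · have h' : (13 : ℝ) * (Fr (fun p => run p (play τ s)) : ℕ) ≤ 8 * (w : ℕ) := by
          exact_mod_cast h
        linarith
      · have h' : (13 : ℝ) * (Fr (fun p => run p (play τ s)) : ℕ) + 8 * 2282 ≤
            8 * ((v : ℕ) + (w : ℕ)) := by
          exact_mod_cast h
        linarith
  · have e : Pp K (play τ s) = 0 := by
      unfold Pp; rw [if_neg hsafe]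
    rw [e]
    linarith

/-- the total potential of the good move lists -/
noncomputable def W (τ : List (Fin 5) → Fin 5) (K n : ℕ) : ℝ := ∑ s ∈ S τ n, Pp K (play τ s)

theorem W_succ (τ : List (Fin 5) → Fin 5) (K n : ℕ) :
    W τ K (n + 1) = ∑ s ∈ S τ n, ∑ a : Fin 5, ctr τ K s a := by
  classical
  have hinj : Function.Injective
      (fun x : (_ : List (Fin 5)) × Fin 5 => x.2 :: x.1) := by
    rintro ⟨s, a⟩ ⟨t, b⟩ h
    simp only [List.cons.injEq] at h
    obtain ⟨rfl, rfl⟩ := h
    rfl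
  unfold W
  rw [S, sum_image (fun x _ y _ h => hinj h), sum_sigma]
  apply sum_congr rfl
  intro s _
  rw [sum_filter]
  apply sum_congr rfl
  intro a _
  unfold ctr
  by_cases h : Bad (play τ s) a
  · rw [if_neg (not_not.2 h), if_pos h]
  · rw [if_pos h, if_neg h]

theorem W_growth {τ : List (Fin 5) → Fin 5} {K n : ℕ} (hK : n + 2 ≤ K) :
    13 / 8 * W τ K n ≤ W τ K (n + 1) := by
  rw [W_succ, W, mul_sum]
  exact sum_le_sum fun s hs => local_ineq hs hK

theorem W_zero (τ : List (Fin 5) → Fin 5) (K : ℕ) : 0 < W τ K 0 := by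
  have hsafe : Safe ([] : List (Fin 5)) := by
    unfold Safe
    decide
  have h1 : W τ K 0 = Pp K [] := by
    unfold W
    simp [S, play]
  rw [h1]
  refine lt_of_lt_of_le ?_ (Pp_ge hsafe)
  unfold Pot
  have h2 : tl K ([] : List (Fin 5)) ≤ 2282 / 10000 := by
    refine le_trans ?_ (sum_mu_le K)
    apply sum_le_sum
    intro p _
    unfold wt
    apply pow_le_pow_of_le_one (by norm_num) (by norm_num)
    simp only [run]
    omega
  have h3 : Fr (fun p => run p ([] : List (Fin 5))) = 10000 := by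
    simp [Fr, FF, run]
  rw [h3]
  push_cast
  norm_num
  linarith

theorem S_nonempty (τ : List (Fin 5) → Fin 5) (n : ℕ) : (S τ n).Nonempty := by
  have key : ∀ m, m ≤ n → 0 < W τ (n + 2) m := by
    intro m
    induction m with
    | zero => intro _; exact W_zero τ _
    | succ m ih =>
      intro hm
      have h1 := ih (by omega)
      have h2 := W_growth (τ := τ) (K := n + 2) (n := m) (by omega)
      linarith
  have h := key n le_rfl
  by_contra hcon
  rw [not_nonempty_iff_eq_empty] at hcon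
  unfold W at h
  rw [hcon, sum_empty] at h
  exact lt_irrefl _ h

end Pool.Agent.U373.Game
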