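import Mathlib
import Pool.Agent.H42.Game.Strategy
import Pool.Agent.H42.Game.Lower
import Pool.Agent.U373.Game.Pot

set_option autoImplicit false

/-!
# Player 1 wins the sequence game over five symbols
-/

namespace Pool.Agent.U373.Game

open H42Game Finset

theorem win_all {c : ℕ} (hc : 0 < c)
    (hS : ∀ (τ : List (Fin c) → Fin c) (n : ℕ), (S τ n).Nonempty) (N : ℕ) :
    Win N ([] : List (Fin c)) := by
  classical
  by_contra hN
  have d : Fin c := ⟨0, hc⟩
  let τ : List (Fin c) → Fin c := fun l =>
    if hb : ∃ b, ¬ Win (N - (l.length + 1) / 2) (b :: l) then hb.choose else d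
  have key : ∀ s : List (Fin c), s.length ≤ N → ¬ Win (N - s.length) (play τ s) := by
    intro s
    induction s with
    | nil => intro _; simpa [play] using hN
    | cons a s ih =>
      intro hs
      rw [List.length_cons] at hs
      have h1 := ih (by omega)
      obtain ⟨m, hm⟩ : ∃ m, N - s.length = m + 1 := ⟨N - s.length - 1, by omega⟩
      rw [hm] at h1
      have h2 : ∃ b, ¬ Win m (b :: a :: play τ s) := by
        by_contra hcon
        push Not at hcon
        apply h1
        exact ⟨good_tail (good_tail (hcon d).good), a, hcon⟩
      have hlen : N - ((a :: play τ s).length + 1) / 2 = m := by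
        rw [List.length_cons, play_length]; omega
      have h3 : ¬ Win m (τ (a :: play τ s) :: a :: play τ s) := by
        have hex : ∃ b, ¬ Win (N - ((a :: play τ s).length + 1) / 2) (b :: a :: play τ s) := by
          rw [hlen]; exact h2
        have := hex.choose_spec
        have e : τ (a :: play τ s) = hex.choose := by
          simp only [τ]
          rw [dif_pos hex]
        rw [e, ← hlen]
        exact this
      rw [List.length_cons, show N - (s.length + 1) = m by omega]
      exact h3
  obtain ⟨s, hs⟩ := hS τ N
  have hl := length_of_mem hs
  have h1 := key s hl.le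
  rw [hl, Nat.sub_self] at h1
  exact h1 (good_S hs)

theorem upper {c : ℕ} (hc : 0 < c)
    (hS : ∀ (τ : List (Fin c) → Fin c) (n : ℕ), (S τ n).Nonempty) : PlayerOneWins c := by
  classical
  have d : Fin c := ⟨0, hc⟩
  refine ⟨fun l => if h : WinAll l.reverse then h.step.choose else d, ?_⟩
  intro x hx
  have key : ∀ n, WinAll (hst x (2 * n)) := by
    intro n
    induction n with
    | zero =>
      intro N
      have : hst x (2 * 0) = [] := by simp [hst]
      rw [this]
      exact win_all hc hS N
    | succ n ih =>
      rw [show 2 * (n + 1) = 2 * n + 1 + 1 by ring, hst_succ, hst_succ]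
      have h1 : x (2 * n) = ih.step.choose := by
        rw [hx n]
        simp only
        rw [dif_pos (show WinAll ((List.range (2 * n)).map x).reverse from ih)]
        rfl
      have h2 := ih.step.choose_spec
      rw [← h1] at h2
      exact h2 _
  exact no_rep fun n => key n 0

/-- Player 1 wins over five symbols -/
theorem five : PlayerOneWins 5 := upper (by norm_num) (S_nonempty)

end Pool.Agent.U373.Game
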